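import Pool.Agent.Helper15.NumField

/-!
# Accumulation of square values at a good zero implies density
-/

namespace Pool.Agent.Helper37.PD

open NNReal MvPolynomial Pool.Agent.Helper15

/-- Let `P` be a zero of `F` at which no partial derivative of `F` vanishes. If there are points
`x`, arbitrarily close to `P` for the valuation `v`, at which `F` is a nonzero square, then the
set of all points at which `F` is a nonzero square is Zariski dense. -/
theorem dense_of_accumulate {L ι : Type*} [Field L] [Infinite L] [Finite ι] [DecidableEq ι]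
    (v : Valuation L ℝ≥0) (h3 : v 3 < 1) (h30 : v 3 ≠ 0) (F : MvPolynomial ι L)
    (hdeg : ∀ j, F.degreeOf j ≤ 4) (P : ι → L) (hP : eval P F = 0)
    (hd : ∀ j, eval P (pderiv j F) ≠ 0)
    (hacc : ∀ ε : ℝ≥0, 0 < ε → ∃ x : ι → L, (∀ j, v (x j - P j) < ε) ∧
      ∃ w : L, w ≠ 0 ∧ w ^ 2 = eval x F)
    (g : MvPolynomial ι L)
    (hg : ∀ x : ι → L, (∃ u : L, u ≠ 0 ∧ u ^ 2 = eval x F) → eval x g = 0) : g = 0 := by
  classical
  cases nonempty_fintype ι
  have h3ne : (3 : L) ≠ 0 := (Valuation.ne_zero_iff v).mp h30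
  have h9ne : (9 : L) ≠ 0 := by
    have : (9 : L) = 3 * 3 := by norm_num
    rw [this]; exact mul_ne_zero h3ne h3ne
  obtain ⟨k, hk⟩ := exists_pow_mul_le_one v h3 (Helper15.translate P F).support
    (fun m => coeff m (Helper15.translate P F))
  set F1 : MvPolynomial ι L := rescaled k P F with hF1
  have hint : ∀ m, v (coeff m F1) ≤ 1 := by
    intro m
    rw [hF1, rescaled, coeff_C_mul]
    by_cases hm : m ∈ (Helper15.translate P F).support
    · exact hk m hm
    · rw [notMem_support_iff.mp hm, mul_zero, map_zero]; exact zero_le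
  obtain ⟨F', hF'⟩ : ∃ F' : MvPolynomial ι v.integer, map v.integer.subtype F' = F1 := by
    have : F1 ∈ Set.range (map (σ := ι) v.integer.subtype) := by
      rw [mem_range_map_iff_coeffs_subset]
      intro z hz
      obtain ⟨m, hm⟩ := mem_coeffs_iff.mp hz
      refine ⟨⟨z, ?_⟩, rfl⟩
      rw [hm.2]
      exact hint m
    exact this
  have hevmap : ∀ (b : ι → v.integer) (Q : MvPolynomial ι v.integer),
      eval (fun i => (b i : L)) (map v.integer.subtype Q) = ((eval b Q : v.integer) : L) := by
    intro b Q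
    rw [eval_map, ← Subring.subtype_apply, ← MvPolynomial.eval₂_id, MvPolynomial.hom_eval₂]
    rfl
  have hev1 : ∀ y : ι → L, eval y F1 = 9 ^ k * eval (y + P) F := by
    intro y
    rw [hF1, rescaled, map_mul, eval_C, eval_translate]
  have hev2 : ∀ (y : ι → L) (j : ι), eval y (pderiv j F1) = 9 ^ k * eval (y + P) (pderiv j F) := by
    intro y j
    rw [hF1, rescaled, pderiv_C_mul, map_mul, eval_C, eval_pderiv_translate]
  -- a lower bound for the partial derivatives
  obtain ⟨c, hcpos, hc1, hc⟩ : ∃ c : ℝ≥0, 0 < c ∧ c ≤ 1 ∧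
      ∀ j, c ≤ v (eval (0 : ι → L) (pderiv j F1)) := by
    let f' : Option ι → ℝ≥0 := fun o => o.elim 1 (fun j => v (eval (0 : ι → L) (pderiv j F1)))
    have hne : (Finset.univ : Finset (Option ι)).Nonempty := ⟨none, Finset.mem_univ _⟩
    refine ⟨Finset.univ.inf' hne f', ?_, ?_, fun j => ?_⟩
    · rw [Finset.lt_inf'_iff]
      rintro (_ | j) _
      · exact one_pos
      · refine pos_iff_ne_zero.mpr ((Valuation.ne_zero_iff v).mpr ?_)
        rw [hev2, zero_add]
        exact mul_ne_zero (pow_ne_zero k h9ne) (hd j)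
    · exact Finset.inf'_le f' (Finset.mem_univ none)
    · exact Finset.inf'_le f' (Finset.mem_univ (some j))
  have hε : (0 : ℝ≥0) < v 3 * c ^ 8 := mul_pos (pos_iff_ne_zero.mpr h30) (pow_pos hcpos 8)
  obtain ⟨x, hx, w, hw0, hw⟩ := hacc _ hε
  have hεc : v 3 * c ^ 8 ≤ c := by
    calc v 3 * c ^ 8 ≤ 1 * c ^ 1 := mul_le_mul' h3.le
          (pow_le_pow_of_le_one zero_le hc1 (by norm_num))
      _ = c := by rw [one_mul, pow_one]
  have hxint : ∀ j, v (x j - P j) ≤ 1 := fun j =>
    le_trans (hx j).le (le_trans hεc hc1)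
  obtain ⟨a', ha'⟩ : ∃ a' : ι → v.integer, (x - P) = fun i => (a' i : L) :=
    ⟨fun i => ⟨x i - P i, hxint i⟩, rfl⟩
  have hz0 : (0 : ι → L) = fun i => (((0 : ι → v.integer) i : v.integer) : L) := by
    funext i; simp
  rcases isEmpty_or_nonempty ι with hι | hι
  · -- no variables: impossible, as `F` vanishes at the only point
    exfalso
    have : x = P := funext fun i => (hι.false i).elim
    rw [this, hP] at hw
    exact hw0 (pow_eq_zero_iff (two_ne_zero) |>.mp hw)
  have hne' : (Finset.univ : Finset ι).Nonempty := Finset.univ_nonempty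
  obtain ⟨ρ, hρlt, hρ⟩ : ∃ ρ : ℝ≥0, ρ < v 3 * c ^ 8 ∧ ∀ j, v (x j - P j) ≤ ρ := by
    refine ⟨Finset.univ.sup' hne' (fun j => v (x j - P j)), ?_, fun j => ?_⟩
    · rw [Finset.sup'_lt_iff]
      intro j _
      exact hx j
    · exact Finset.le_sup' (fun j => v (x j - P j)) (Finset.mem_univ j)
  have hlip : ∀ Q : MvPolynomial ι v.integer,
      v (eval (x - P) (map v.integer.subtype Q)
        - eval (0 : ι → L) (map v.integer.subtype Q)) ≤ ρ := by
    intro Q
    have := lipschitz v Q ρ a' 0 (by
      intro i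
      have e := congrFun ha' i
      have : ((a' i - (0 : ι → v.integer) i : v.integer) : L) = x i - P i := by
        rw [Pi.zero_apply, sub_zero, ← e]; rfl
      rw [this]
      exact hρ i)
    rw [ha', hz0, hevmap, hevmap]
    exact_mod_cast this
  have hw1 : ((3 : L) ^ k * w) ^ 2 = eval (x - P) F1 := by
    rw [hev1, sub_add_cancel, ← hw, mul_pow, ← pow_mul, mul_comm k 2, pow_mul]
    norm_num
  have hG' : Helper15.translate P g = 0 := by
    refine dense_local' v h3 F1 hint ?_ (x - P) (fun i => hxint i) (3 ^ k * w)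
      (mul_ne_zero (pow_ne_zero k h3ne) hw0) hw1 c ?_ ?_ _ ?_
    · intro j
      rw [hF1, rescaled]
      exact le_trans (degreeOf_C_mul_le _ _ _) (le_trans (degreeOf_translate_le _ _ _) (hdeg j))
    · intro j
      have h2 : v (eval (x - P) (pderiv j F1) - eval (0 : ι → L) (pderiv j F1))
          < v (eval (0 : ι → L) (pderiv j F1)) := by
        refine lt_of_lt_of_le (lt_of_le_of_lt ?_ (lt_of_lt_of_le hρlt hεc)) (hc j)
        rw [← hF', pderiv_map]
        exact hlip _
      have h3' : eval (x - P) (pderiv j F1) = eval (0 : ι → L) (pderiv j F1)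
          + (eval (x - P) (pderiv j F1) - eval (0 : ι → L) (pderiv j F1)) := by ring
      rw [h3', Valuation.map_add_eq_of_lt_left v h2]
      exact hc j
    · have := hlip F'
      rw [hF', ← hw1, hev1 0, zero_add, hP, mul_zero, sub_zero, map_pow] at this
      exact lt_of_le_of_lt this hρlt
    · rintro y ⟨u, hu0, hu⟩
      rw [eval_translate]
      apply hg
      refine ⟨u / 3 ^ k, div_ne_zero hu0 (pow_ne_zero k h3ne), ?_⟩
      rw [hev1] at hu
      rw [div_pow, hu]
      have e2 : ((3 : L) ^ k) ^ 2 = 9 ^ k := by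
        rw [← pow_mul, mul_comm, pow_mul]; norm_num
      rw [e2]
      have h9 : (9 : L) ^ k ≠ 0 := pow_ne_zero _ h9ne
      field_simp
  apply MvPolynomial.funext
  intro z
  have := eval_translate P (z - P) g
  rw [hG', sub_add_cancel] at this
  rw [← this]
  simp

end Pool.Agent.Helper37.PD
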