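import Pool.Agent.Helper37.PD.Curve
import Pool.Agent.Helper15.PotDense

/-!
# Double covers over a potentially dense base
-/

namespace Pool.Agent.Helper37.PD

open NNReal MvPolynomial Pool.Agent.Helper15 AlgebraicGeometry CategoryTheory

universe u

/-- If the `L`-points of an affine scheme `Spec A`, with `A` a domain, are dense, then elements of
`A` are determined by their values at the `L`-points. -/
theorem sep_of_dense (K : Type u) [Field K] (L : Type u) [Field L] [Algebra K L]
    (A : Type u) [CommRing A] [IsDomain A] [Algebra K A]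
    (h : Dense (ratPts K L (Spec (CommRingCat.of A))
      (Spec.map (CommRingCat.ofHom (algebraMap K A)))))
    (a : A) (ha : ∀ φ : A →ₐ[K] L, φ a = 0) : a = 0 := by
  have hclosed : IsClosed (PrimeSpectrum.zeroLocus ({a} : Set A)) :=
    PrimeSpectrum.isClosed_zeroLocus _
  have hsub : ratPts K L (Spec (CommRingCat.of A))
      (Spec.map (CommRingCat.ofHom (algebraMap K A))) ⊆ PrimeSpectrum.zeroLocus ({a} : Set A) := by
    rintro x ⟨p, hp, ⟨y, hy⟩⟩
    obtain ⟨f, rfl⟩ : ∃ f : CommRingCat.of A ⟶ CommRingCat.of L, Spec.map f = p :=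
      ⟨Spec.preimage p, Spec.map_preimage p⟩
    have hf : CommRingCat.ofHom (algebraMap K A) ≫ f = CommRingCat.ofHom (algebraMap K L) := by
      apply Spec.map_injective
      rw [Spec.map_comp, hp]
    let φ : A →ₐ[K] L :=
      { f.hom with
        commutes' := by
          intro r
          have := congrArg (fun z => z.hom r) hf
          exact this }
    have h1 : φ a = 0 := ha φ
    have h2 : f.hom a = 0 := h1
    have h3 : a ∈ ((Spec.map f) y : PrimeSpectrum A).asIdeal := by
      show f.hom a ∈ (y : PrimeSpectrum L).asIdeal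
      rw [h2]
      exact Ideal.zero_mem _
    rw [← hy]
    exact Set.singleton_subset_iff.mpr h3
  have huniv : PrimeSpectrum.zeroLocus ({a} : Set A) = Set.univ := by
    rw [Set.eq_univ_iff_forall]
    intro x
    exact (closure_minimal hsub hclosed) (h x)
  have hbot : (⊥ : Ideal A).IsPrime := Ideal.isPrime_bot
  have h2 : (⟨⊥, hbot⟩ : PrimeSpectrum A) ∈ PrimeSpectrum.zeroLocus ({a} : Set A) := by
    rw [huniv]; trivial
  rw [PrimeSpectrum.mem_zeroLocus, Set.singleton_subset_iff] at h2
  exact h2

/-- Elements of the coordinate ring of the double cover `w ^ 2 = F` over the base `A` are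
determined by their values at the `L`-points. -/
theorem cover_separated_base {K A A' L ι : Type*} [Field K] [CommRing A] [CommRing A']
    [IsDomain A'] [Algebra K A] [Algebra K A'] [Algebra A A'] [IsScalarTower K A A']
    (hinj : Function.Injective (algebraMap A A'))
    [Field L] [CharZero L] [Algebra K L] (F : MvPolynomial ι A) (D : A') (hD : D ≠ 0)
    (sep : ∀ a : A', (∀ φ : A' →ₐ[K] L, φ a = 0) → a = 0)
    (hdense : ∀ φ : A' →ₐ[K] L, φ D ≠ 0 → ∀ G : MvPolynomial ι L,
      (∀ x : ι → L, (∃ u : L, u ≠ 0 ∧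
        u ^ 2 = eval₂ ((φ : A' →+* L).comp (algebraMap A A')) x F) → eval x G = 0) → G = 0)
    (f : Polynomial (MvPolynomial ι A)) (hf : f = Polynomial.X ^ 2 - Polynomial.C F)
    (g : AdjoinRoot f) (hg : ∀ φ : AdjoinRoot f →ₐ[K] L, φ g = 0) : g = 0 := by
  classical
  have hAnt : Nontrivial A := (algebraMap A A').domain_nontrivial
  have hmonic : f.Monic := by rw [hf]; exact Polynomial.monic_X_pow_sub_C F (by norm_num)
  have hnat : f.natDegree = 2 := by rw [hf]; exact Polynomial.natDegree_X_pow_sub_C
  obtain ⟨p, hp⟩ := AdjoinRoot.mk_surjective g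
  set r : Polynomial (MvPolynomial ι A) := p %ₘ f with hr
  have hpr : AdjoinRoot.mk f p = AdjoinRoot.mk f r := by
    rw [AdjoinRoot.mk_eq_mk]
    refine ⟨p /ₘ f, ?_⟩
    have := Polynomial.modByMonic_add_div p f
    rw [hr]
    linear_combination -this
  have hdegr : r.natDegree < 2 := by
    rw [← hnat]
    exact Polynomial.natDegree_modByMonic_lt p hmonic (by
      intro h
      rw [h] at hnat
      simp at hnat)
  obtain ⟨c0, c1, hc⟩ : ∃ c0 c1 : MvPolynomial ι A, r = Polynomial.C c1 * Polynomial.X
      + Polynomial.C c0 :=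
    ⟨r.coeff 0, r.coeff 1, Polynomial.eq_X_add_C_of_natDegree_le_one (by omega)⟩
  -- the homomorphism attached to a point
  have hpt : ∀ (φ0 : A' →ₐ[K] L) (x : ι → L) (u : L),
      u ^ 2 = eval₂ ((φ0 : A' →+* L).comp (algebraMap A A')) x F →
      eval₂ ((φ0 : A' →+* L).comp (algebraMap A A')) x c1 * u
        + eval₂ ((φ0 : A' →+* L).comp (algebraMap A A')) x c0 = 0 := by
    intro φ0 x u hu
    set χ : A →+* L := (φ0 : A' →+* L).comp (algebraMap A A') with hχ
    have hroot : Polynomial.eval₂ (eval₂Hom χ x) u f = 0 := by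
      rw [hf]
      simp only [Polynomial.eval₂_sub, Polynomial.eval₂_pow, Polynomial.eval₂_X,
        Polynomial.eval₂_C]
      rw [hu]
      simp
    let φ : AdjoinRoot f →ₐ[K] L :=
      { AdjoinRoot.lift (eval₂Hom χ x) u hroot with
        commutes' := by
          intro a
          have h1 : algebraMap K (AdjoinRoot f) a = AdjoinRoot.of f (C (algebraMap K A a)) := rfl
          show AdjoinRoot.lift _ u hroot (algebraMap K (AdjoinRoot f) a) = _
          rw [h1, AdjoinRoot.lift_of, coe_eval₂Hom, eval₂_C, hχ, RingHom.comp_apply,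
            ← IsScalarTower.algebraMap_apply]
          exact φ0.commutes a }
    have h2 : φ (AdjoinRoot.mk f p) = 0 := by
      rw [hp]; exact hg φ
    have h3 : φ (AdjoinRoot.mk f p) = AdjoinRoot.lift (eval₂Hom χ x) u hroot
      (AdjoinRoot.mk f p) := rfl
    rw [h3, hpr, AdjoinRoot.lift_mk, hc] at h2
    simpa using h2
  have key : ∀ (φ0 : A' →ₐ[K] L), φ0 D ≠ 0 →
      map ((φ0 : A' →+* L).comp (algebraMap A A')) c0 = 0 ∧
      map ((φ0 : A' →+* L).comp (algebraMap A A')) c1 = 0 := by
    intro φ0 hφ0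
    have hz : ∀ x : ι → L, (∃ u : L, u ≠ 0 ∧
        u ^ 2 = eval₂ ((φ0 : A' →+* L).comp (algebraMap A A')) x F) →
        eval₂ ((φ0 : A' →+* L).comp (algebraMap A A')) x c0 = 0 ∧
        eval₂ ((φ0 : A' →+* L).comp (algebraMap A A')) x c1 = 0 := by
      rintro x ⟨u, hu0, hu⟩
      have e1 := hpt φ0 x u hu
      have e2 := hpt φ0 x (-u) (by rw [neg_sq, hu])
      have h2 : (2 : L) ≠ 0 := two_ne_zero
      have e3 : eval₂ ((φ0 : A' →+* L).comp (algebraMap A A')) x c0 = 0 := by
        have : (2 : L) * eval₂ ((φ0 : A' →+* L).comp (algebraMap A A')) x c0 = 0 := by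
          linear_combination e1 + e2
        exact (mul_eq_zero.mp this).resolve_left h2
      refine ⟨e3, ?_⟩
      rw [e3, add_zero] at e1
      exact (mul_eq_zero.mp e1).resolve_right hu0
    constructor
    · refine hdense φ0 hφ0 _ fun x hx => ?_
      rw [MvPolynomial.eval_map]; exact (hz x hx).1
    · refine hdense φ0 hφ0 _ fun x hx => ?_
      rw [MvPolynomial.eval_map]; exact (hz x hx).2
  have hcoef : ∀ cc : MvPolynomial ι A, (∀ (φ0 : A' →ₐ[K] L), φ0 D ≠ 0 →
      map ((φ0 : A' →+* L).comp (algebraMap A A')) cc = 0) → cc = 0 := by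
    intro cc hcc
    ext m
    rw [coeff_zero]
    apply hinj
    rw [map_zero]
    have h1 : algebraMap A A' (coeff m cc) * D = 0 := by
      apply sep
      intro φ
      rw [map_mul]
      by_cases hφ : φ D = 0
      · rw [hφ, mul_zero]
      · have := congrArg (coeff m) (hcc φ hφ)
        rw [coeff_map, coeff_zero] at this
        have h2 : φ (algebraMap A A' (coeff m cc)) = 0 := this
        rw [h2, zero_mul]
    exact (mul_eq_zero.mp h1).resolve_right hD
  have hc0 : c0 = 0 := hcoef c0 fun φ0 h => (key φ0 h).1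
  have hc1 : c1 = 0 := hcoef c1 fun φ0 h => (key φ0 h).2
  rw [← hp, hpr, hc, hc0, hc1]
  simp

end Pool.Agent.Helper37.PD
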