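import Pool.Agent.Helper37.PD.Base
import Pool.Agent.Helper15.NumField

/-!
# Double covers over a potentially dense base: the main theorem
-/

namespace Pool.Agent.Helper37.PD

open NNReal MvPolynomial Pool.Agent.Helper15 AlgebraicGeometry CategoryTheory

universe u

theorem base_main (K : Type u) [Field K] [NumberField K] (A A' : Type u) [CommRing A]
    [CommRing A'] [IsDomain A'] [Algebra K A] [Algebra K A'] [Algebra A A']
    [IsScalarTower K A A'] (hinj : Function.Injective (algebraMap A A'))
    (hA' : PotentiallyDense K (Spec (CommRingCat.of A'))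
      (Spec.map (CommRingCat.ofHom (algebraMap K A'))))
    (n : ℕ) (F : MvPolynomial (Fin n) A) (hdeg : ∀ j, F.degreeOf j ≤ 4)
    (c : Fin n → Polynomial A') (e : Polynomial A') (he : e.coeff 0 ≠ 0)
    (h : FractionRing (Polynomial A')) (hh : h ≠ 0)
    (hcurve : aeval (fun j => algebraMap (Polynomial A') (FractionRing (Polynomial A')) (c j)
        / algebraMap (Polynomial A') (FractionRing (Polynomial A')) e) F
      = algebraMap (Polynomial A') (FractionRing (Polynomial A')) Polynomial.X * h ^ 2)
    (h0 : aeval (fun j => algebraMap A' (FractionRing A') ((c j).coeff 0)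
        / algebraMap A' (FractionRing A') (e.coeff 0)) F = 0)
    (h1 : ∀ i, aeval (fun j => algebraMap A' (FractionRing A') ((c j).coeff 0)
        / algebraMap A' (FractionRing A') (e.coeff 0)) (pderiv i F) ≠ 0)
    (X : Scheme.{u}) (s : X ⟶ Spec (CommRingCat.of K)) [IrreducibleSpace X]
    (hX : BirationalOver K X
      (Spec (CommRingCat.of (AdjoinRoot
        (Polynomial.X ^ 2 - Polynomial.C F : Polynomial (MvPolynomial (Fin n) A)))))
      s
      (Spec.map (CommRingCat.ofHom (algebraMap K (AdjoinRoot
        (Polynomial.X ^ 2 - Polynomial.C F : Polynomial (MvPolynomial (Fin n) A))))))) :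
    PotentiallyDense K X s := by
  classical
  obtain ⟨L, iL, aL, hfin, hd⟩ := hA'
  refine PotentiallyDense.of_birational K X _ s _ hX ⟨L, iL, aL, hfin, ?_⟩
  have sep := sep_of_dense K L A' hd
  have hczK : CharZero K := inferInstance
  have hcz : CharZero L := charZero_of_injective_algebraMap (algebraMap K L).injective
  have halg : Algebra.IsAlgebraic ℚ L := by
    have : IsScalarTower ℚ K L := inferInstance
    have : Algebra.IsAlgebraic K L := Algebra.IsAlgebraic.of_finite K L
    exact Algebra.IsAlgebraic.trans ℚ K L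
  have : Fact (Nat.Prime 3) := ⟨Nat.prime_three⟩
  obtain ⟨v, h3, h30⟩ := exists_valuation 3 L
  push_cast at h3 h30
  -- numerator and denominator of `h`
  obtain ⟨p, q, hq0, hpq⟩ := IsFractionRing.div_surjective (A := Polynomial A') h
  have hq : q ≠ 0 := nonZeroDivisors.ne_zero hq0
  have hinjP : Function.Injective (algebraMap (Polynomial A') (FractionRing (Polynomial A'))) :=
    IsFractionRing.injective _ _
  have hinjA : Function.Injective (algebraMap A' (FractionRing A')) :=
    IsFractionRing.injective _ _
  have hp : p ≠ 0 := by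
    rintro rfl
    rw [map_zero, zero_div] at hpq
    exact hh hpq.symm
  have he' : e ≠ 0 := by
    rintro rfl
    exact he (by simp)
  have heP : algebraMap (Polynomial A') (FractionRing (Polynomial A')) e ≠ 0 := by
    rw [Ne, map_eq_zero_iff _ hinjP]; exact he'
  have hqP : algebraMap (Polynomial A') (FractionRing (Polynomial A')) q ≠ 0 := by
    rw [Ne, map_eq_zero_iff _ hinjP]; exact hq
  have heA : algebraMap A' (FractionRing A') (e.coeff 0) ≠ 0 := by
    rw [Ne, map_eq_zero_iff _ hinjA]; exact he
  -- the identity without denominators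
  obtain ⟨T, hT⟩ : ∃ T, T = F.totalDegree := ⟨_, rfl⟩
  have hscal : (algebraMap (Polynomial A') (FractionRing (Polynomial A'))).comp
      (algebraMap A (Polynomial A')) = algebraMap A (FractionRing (Polynomial A')) :=
    (IsScalarTower.algebraMap_eq A (Polynomial A') (FractionRing (Polynomial A'))).symm
  have hscalA : (algebraMap A' (FractionRing A')).comp (algebraMap A A')
      = algebraMap A (FractionRing A') :=
    (IsScalarTower.algebraMap_eq A A' (FractionRing A')).symm
  have hid : q ^ 2 * homog F c e T = e ^ T * Polynomial.X * p ^ 2 := by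
    apply hinjP
    rw [map_mul, map_mul, map_mul, map_pow, map_pow, map_pow,
      homog_spec (algebraMap (Polynomial A') (FractionRing (Polynomial A'))) F c e T hT.ge heP,
      hscal]
    rw [aeval_def] at hcurve
    rw [hcurve, ← hpq, div_pow]
    field_simp
  -- numerators at the origin
  have hspecA : ∀ P : MvPolynomial (Fin n) A,
      algebraMap A' (FractionRing A') (homog P (fun j => (c j).coeff 0) (e.coeff 0)
        P.totalDegree)
      = algebraMap A' (FractionRing A') (e.coeff 0) ^ P.totalDegree
        * aeval (fun j => algebraMap A' (FractionRing A') ((c j).coeff 0)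
        / algebraMap A' (FractionRing A') (e.coeff 0)) P := by
    intro P
    rw [homog_spec (algebraMap A' (FractionRing A')) P (fun j => (c j).coeff 0) (e.coeff 0)
      P.totalDegree le_rfl heA, hscalA, aeval_def]
  have hF0 : homog F (fun j => (c j).coeff 0) (e.coeff 0) F.totalDegree = 0 := by
    apply hinjA
    rw [hspecA, h0, mul_zero, map_zero]
  have hdF : ∀ i, homog (pderiv i F) (fun j => (c j).coeff 0) (e.coeff 0)
      (pderiv i F).totalDegree ≠ 0 := by
    intro i hi
    have := hspecA (pderiv i F)
    rw [hi, map_zero] at this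
    exact (mul_ne_zero (pow_ne_zero _ heA) (h1 i)) this.symm
  -- the bad locus
  obtain ⟨D, hD⟩ : ∃ D : A', D = e.coeff 0 * p.leadingCoeff * q.leadingCoeff *
      ∏ i, homog (pderiv i F) (fun j => (c j).coeff 0) (e.coeff 0) (pderiv i F).totalDegree :=
    ⟨_, rfl⟩
  have hD0 : D ≠ 0 := by
    rw [hD]
    refine mul_ne_zero (mul_ne_zero (mul_ne_zero he ?_) ?_) (Finset.prod_ne_zero_iff.mpr
      fun i _ => hdF i)
    · exact Polynomial.leadingCoeff_ne_zero.mpr hp
    · exact Polynomial.leadingCoeff_ne_zero.mpr hq
  refine dense_ratPts_spec K L _ (fun g hg => ?_)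
  refine cover_separated_base hinj F D hD0 sep ?_ _ rfl g hg
  intro φ hφ G hG
  rw [hD, map_mul, map_mul, map_mul, map_prod] at hφ
  have hφ1 : φ (e.coeff 0) ≠ 0 := fun h => hφ (by rw [h]; ring)
  have hφ2 : φ p.leadingCoeff ≠ 0 := fun h => hφ (by rw [h]; ring)
  have hφ3 : φ q.leadingCoeff ≠ 0 := fun h => hφ (by rw [h]; ring)
  have hφ4 : ∀ i, φ (homog (pderiv i F) (fun j => (c j).coeff 0) (e.coeff 0)
      (pderiv i F).totalDegree) ≠ 0 := by
    intro i h
    apply hφ
    rw [Finset.prod_eq_zero (Finset.mem_univ i) h, mul_zero]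
  have hspecL : ∀ P : MvPolynomial (Fin n) A,
      φ (homog P (fun j => (c j).coeff 0) (e.coeff 0) P.totalDegree)
      = φ (e.coeff 0) ^ P.totalDegree
        * eval₂ ((φ : A' →+* L).comp (algebraMap A A'))
          (fun j => φ ((c j).coeff 0) / φ (e.coeff 0)) P := by
    intro P
    exact homog_spec (φ : A' →+* L) P (fun j => (c j).coeff 0) (e.coeff 0)
      P.totalDegree le_rfl hφ1
  refine curve_dense v h3 h30 F hdeg c e p q T hT.ge hid (φ : A' →+* L) hφ1 ?_ ?_ ?_ ?_ G hG
  · intro h
    have := congrArg (fun z => Polynomial.coeff z p.natDegree) h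
    simp only [Polynomial.coeff_map, Polynomial.coeff_zero] at this
    exact hφ2 this
  · intro h
    have := congrArg (fun z => Polynomial.coeff z q.natDegree) h
    simp only [Polynomial.coeff_map, Polynomial.coeff_zero] at this
    exact hφ3 this
  · have := hspecL F
    rw [hF0, map_zero] at this
    exact (mul_eq_zero.mp this.symm).resolve_left (pow_ne_zero _ hφ1)
  · intro i hi
    apply hφ4 i
    rw [hspecL]
    show _ * eval₂ ((φ : A' →+* L).comp (algebraMap A A'))
      (fun j => (φ : A' →+* L) ((c j).coeff 0) / (φ : A' →+* L) (e.coeff 0)) (pderiv i F) = 0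
    rw [hi, mul_zero]

end Pool.Agent.Helper37.PD
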