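import Pool.Agent.Helper37.PD.Strong

/-!
# The core density statement for families

Let `Q(s, x)` be a polynomial of degree at most four in each of the variables `x_j` (and of
arbitrary degree in the variables `s_i`), and suppose that `Q(s, 0) = G(s) H(s) ^ 2` where `G` has
degree at most four in each variable.  Over a field with a valuation `v` such that `v 3 < 1`, and
near a point where `G` is a small nonzero square, the points where `Q` is a nonzero square are
Zariski dense.
-/

namespace Pool.Agent.Helper37.PD

open NNReal MvPolynomial Pool.Agent.Helper15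

section Spec

variable {R ρ ι : Type*} [CommRing R]

/-- The specialisation of the first group of variables at the point `s`. -/
noncomputable def specL (s : ρ → R) (Q : MvPolynomial (ρ ⊕ ι) R) : MvPolynomial ι R :=
  aeval (Sum.elim (fun i => C (s i)) X) Q

/-- The specialisation of the second group of variables at the point `x`. -/
noncomputable def specR (x : ι → R) (Q : MvPolynomial (ρ ⊕ ι) R) : MvPolynomial ρ R :=
  aeval (Sum.elim X (fun j => C (x j))) Q

theorem eval_specL (s : ρ → R) (x : ι → R) (Q : MvPolynomial (ρ ⊕ ι) R) :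
    eval x (specL s Q) = eval (Sum.elim s x) Q := by
  unfold specL
  rw [aeval_def, MvPolynomial.hom_eval₂, MvPolynomial.eval, ← MvPolynomial.coe_eval₂Hom]
  congr 2
  · ext r; simp
  · funext i
    rcases i with i | i <;> simp

theorem eval_specR (s : ρ → R) (x : ι → R) (Q : MvPolynomial (ρ ⊕ ι) R) :
    eval s (specR x Q) = eval (Sum.elim s x) Q := by
  unfold specR
  rw [aeval_def, MvPolynomial.hom_eval₂, MvPolynomial.eval, ← MvPolynomial.coe_eval₂Hom]
  congr 2
  · ext r; simp
  · funext i
    rcases i with i | i <;> simp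

theorem pderiv_specL (s : ρ → R) (j : ι) (Q : MvPolynomial (ρ ⊕ ι) R) :
    pderiv j (specL s Q) = specL s (pderiv (Sum.inr j) Q) := by
  classical
  unfold specL
  induction Q using MvPolynomial.induction_on with
  | C r => simp
  | add p q hp hq => simp only [map_add, hp, hq]
  | mul_X p i hp =>
    simp only [map_mul, Derivation.leibniz, smul_eq_mul, hp, aeval_X, map_add]
    rcases i with i | i
    · have h1 : pderiv j (C (s i) : MvPolynomial ι R) = 0 := pderiv_C
      have h2 : pderiv (Sum.inr j) (X (Sum.inl i) : MvPolynomial (ρ ⊕ ι) R) = 0 :=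
        pderiv_X_of_ne (by simp)
      rw [h2]
      simp [h1]
    · by_cases h : i = j
      · subst h; simp
      · have h1 : pderiv j (X i : MvPolynomial ι R) = 0 := pderiv_X_of_ne h
        have h2 : pderiv (Sum.inr j) (X (Sum.inr i) : MvPolynomial (ρ ⊕ ι) R) = 0 :=
          pderiv_X_of_ne (by simpa using h)
        rw [h2]
        simp [h1]

theorem degreeOf_specL_le [Nontrivial R] (s : ρ → R) (Q : MvPolynomial (ρ ⊕ ι) R) (j : ι) :
    (specL s Q).degreeOf j ≤ Q.degreeOf (Sum.inr j) := by
  classical
  unfold specL
  rw [aeval_def, eval₂_eq]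
  refine le_trans (degreeOf_sum_le j _ _) ?_
  refine Finset.sup_le fun m hm => ?_
  refine le_trans (degreeOf_C_mul_le _ _ _) ?_
  refine le_trans (degreeOf_prod_le j _ _) ?_
  have hmj : m (Sum.inr j) ≤ Q.degreeOf (Sum.inr j) := monomial_le_degreeOf (Sum.inr j) hm
  refine le_trans ?_ hmj
  calc ∑ i ∈ m.support, degreeOf j ((Sum.elim (fun i => C (s i)) X i : MvPolynomial ι R) ^ m i)
      ≤ ∑ i ∈ m.support, (if i = Sum.inr j then m i else 0) := by
        refine Finset.sum_le_sum fun i _ => ?_
        refine le_trans (degreeOf_pow_le _ _ _) ?_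
        rcases i with i | i
        · rw [if_neg (by simp)]
          simp [degreeOf_C]
        · by_cases h : i = j
          · subst h
            rw [if_pos rfl]
            simp [degreeOf_X_self]
          · rw [if_neg (by simpa using h)]
            simp [degreeOf_X_of_ne (Ne.symm h)]
    _ ≤ m (Sum.inr j) := by
        rw [Finset.sum_ite_eq']
        split_ifs
        · exact le_rfl
        · exact Nat.zero_le _

theorem specL_map {S : Type*} [CommRing S] (φ : R →+* S) (s : ρ → R)
    (Q : MvPolynomial (ρ ⊕ ι) R) :
    map φ (specL s Q) = specL (fun i => φ (s i)) (map φ Q) := by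
  unfold specL
  induction Q using MvPolynomial.induction_on with
  | C r => simp only [algHom_C, algebraMap_eq, map_C]
  | add p q hp hq => simp only [map_add, hp, hq]
  | mul_X p i hp =>
    rcases i with i | i <;>
    simp only [map_mul, hp, aeval_X, map_X, map_C, Sum.elim_inl, Sum.elim_inr]

theorem specR_map {S : Type*} [CommRing S] (φ : R →+* S) (x : ι → R)
    (Q : MvPolynomial (ρ ⊕ ι) R) :
    map φ (specR x Q) = specR (fun i => φ (x i)) (map φ Q) := by
  unfold specR
  induction Q using MvPolynomial.induction_on with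
  | C r => simp only [algHom_C, algebraMap_eq, map_C]
  | add p q hp hq => simp only [map_add, hp, hq]
  | mul_X p i hp =>
    rcases i with i | i <;>
    simp only [map_mul, hp, aeval_X, map_X, map_C, Sum.elim_inl, Sum.elim_inr]

end Spec

/-- **Core density statement.** -/
theorem core_int {L ρ ι : Type*} [Field L] [Infinite L] [Finite ρ] [Finite ι] [DecidableEq ρ]
    [DecidableEq ι] (v : Valuation L ℝ≥0) (h3 : v 3 < 1)
    (G : MvPolynomial ρ v.integer) (hGdeg : ∀ i, G.degreeOf i ≤ 4)
    (Q : MvPolynomial (ρ ⊕ ι) v.integer) (hQdeg : ∀ j : ι, Q.degreeOf (Sum.inr j) ≤ 4)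
    (H : MvPolynomial ρ v.integer) (hH : H ≠ 0)
    (hQ : specR 0 Q = G * H ^ 2)
    (b : ρ → v.integer) (w : L) (hw0 : w ≠ 0) (hw : w ^ 2 = ((eval b G : v.integer) : L))
    (c1 : ℝ≥0) (hc1 : ∀ i, c1 ≤ v ((eval b (pderiv i G) : v.integer) : L))
    (hs1 : v w ^ 2 < v 3 * c1 ^ 8)
    (c2 : ℝ≥0)
    (hc2 : ∀ j, c2 ≤ v ((eval (Sum.elim b (0 : ι → v.integer)) (pderiv (Sum.inr j) Q) :
      v.integer) : L))
    (hs2 : v w ^ 2 < v 3 * c2 ^ 8) (hs3 : v w ^ 2 / c1 ^ 4 < c2)
    (g : MvPolynomial (ρ ⊕ ι) L)
    (hg : ∀ z : ρ ⊕ ι → L, (∃ u : L, u ≠ 0 ∧ u ^ 2 = eval z (map v.integer.subtype Q)) →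
      eval z g = 0) : g = 0 := by
  classical
  have hHL : map v.integer.subtype H ≠ 0 := by
    intro h
    apply hH
    have hinj : Function.Injective (map (σ := ρ) v.integer.subtype) :=
      map_injective _ Subtype.val_injective
    exact (map_eq_zero_iff _ hinj).mp h
  have hevmapH : ∀ s : ρ → v.integer, eval (fun i => (s i : L)) (map v.integer.subtype H)
      = ((eval s H : v.integer) : L) := by
    intro s
    rw [eval_map, ← Subring.subtype_apply, ← MvPolynomial.eval₂_id, MvPolynomial.hom_eval₂]
    rfl
  -- for each fixed `x`, the polynomial in `s` vanishes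
  have key : ∀ x : ι → L, specR x g * map v.integer.subtype H = 0 := by
    intro x
    refine dense_local_strong v h3 G hGdeg b w hw0 hw c1 hc1 hs1 _ ?_
    rintro s hsb ⟨u, hu0, hu, huw⟩
    rw [map_mul, eval_specR, hevmapH]
    by_cases hHs : eval s H = 0
    · rw [hHs]; simp
    -- the specialised polynomial
    have hzero : specL (fun i => (s i : L)) g = 0 := by
      have hval0 : eval (0 : ι → v.integer) (specL s Q) = eval s G * (eval s H) ^ 2 := by
        rw [eval_specL, ← eval_specR, hQ, map_mul, map_pow]
      refine dense_local v h3 (specL s Q)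
        (fun j => le_trans (degreeOf_specL_le s Q j) (hQdeg j)) 0
        (u * ((eval s H : v.integer) : L)) ?_ ?_ c2 ?_ ?_ _ ?_
      · refine mul_ne_zero hu0 ?_
        intro h
        exact hHs (Subtype.ext h)
      · rw [hval0, mul_pow, hu]
        push_cast
        rfl
      · intro j
        rw [pderiv_specL, eval_specL]
        have h1 : v ((eval (Sum.elim s 0) (pderiv (Sum.inr j) Q)
            - eval (Sum.elim b 0) (pderiv (Sum.inr j) Q) : v.integer) : L)
            ≤ v w ^ 2 / c1 ^ 4 := by
          refine lipschitz v _ _ _ _ ?_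
          rintro (i | i)
          · exact hsb i
          · simp
        have h2 := lt_of_le_of_lt h1 (lt_of_lt_of_le hs3 (hc2 j))
        have h3' : ((eval (Sum.elim s 0) (pderiv (Sum.inr j) Q) : v.integer) : L)
            = ((eval (Sum.elim b 0) (pderiv (Sum.inr j) Q) : v.integer) : L)
            + ((eval (Sum.elim s 0) (pderiv (Sum.inr j) Q)
            - eval (Sum.elim b 0) (pderiv (Sum.inr j) Q) : v.integer) : L) := by
          push_cast; ring
        rw [h3', Valuation.map_add_eq_of_lt_left v h2]
        exact hc2 j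
      · rw [map_mul]
        have h1 : v u * v ((eval s H : v.integer) : L) ≤ v w := by
          calc v u * v ((eval s H : v.integer) : L) ≤ v w * 1 :=
                mul_le_mul' huw (eval s H).2
            _ = v w := mul_one _
        calc (v u * v ((eval s H : v.integer) : L)) ^ 2 ≤ v w ^ 2 :=
              pow_le_pow_left₀ zero_le h1 2
          _ < _ := hs2
      · rintro y ⟨u', hu'0, hu'⟩
        rw [eval_specL]
        apply hg
        refine ⟨u', hu'0, ?_⟩
        rw [hu', ← eval_specL, specL_map]
        rfl
    rw [← eval_specL, hzero]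
    simp
  apply MvPolynomial.funext
  intro z
  have h1 : specR (fun j => z (Sum.inr j)) g = 0 :=
    (mul_eq_zero.mp (key _)).resolve_right hHL
  have h2 := eval_specR (fun i => z (Sum.inl i)) (fun j => z (Sum.inr j)) g
  rw [h1] at h2
  have h3' : (Sum.elim (fun i => z (Sum.inl i)) (fun j => z (Sum.inr j))) = z := by
    funext i; rcases i with i | i <;> rfl
  rw [h3'] at h2
  rw [← h2]; simp

end Pool.Agent.Helper37.PD
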