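import Pool.Agent.Helper37.PD.Pull

/-!
# The core statement with integrality hypotheses
-/

namespace Pool.Agent.Helper37.PD

open NNReal MvPolynomial Pool.Agent.Helper15

/-- A polynomial with integral coefficients comes from the valuation ring. -/
theorem exists_integral {L ι : Type*} [Field L] (v : Valuation L ℝ≥0) (F : MvPolynomial ι L)
    (hint : ∀ m, v (coeff m F) ≤ 1) : ∃ F' : MvPolynomial ι v.integer,
      map v.integer.subtype F' = F := by
  have : F ∈ Set.range (map (σ := ι) v.integer.subtype) := by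
    rw [mem_range_map_iff_coeffs_subset]
    intro z hz
    obtain ⟨m, hm⟩ := mem_coeffs_iff.mp hz
    refine ⟨⟨z, ?_⟩, rfl⟩
    rw [hm.2]
    exact hint m
  exact this

theorem eval_map_integer {L ι : Type*} [Field L] (v : Valuation L ℝ≥0)
    (F : MvPolynomial ι v.integer) (a : ι → v.integer) :
    eval (fun i => (a i : L)) (map v.integer.subtype F) = ((eval a F : v.integer) : L) := by
  rw [eval_map, ← Subring.subtype_apply, ← MvPolynomial.eval₂_id, MvPolynomial.hom_eval₂]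
  rfl

theorem degreeOf_of_map_integer {L ι : Type*} [Field L] (v : Valuation L ℝ≥0)
    (F : MvPolynomial ι v.integer) (j : ι) {n : ℕ}
    (h : (map v.integer.subtype F).degreeOf j ≤ n) : F.degreeOf j ≤ n := by
  rw [degreeOf_le_iff]
  intro m hm
  refine (degreeOf_le_iff.mp h) m ?_
  rw [mem_support_iff] at hm ⊢
  rw [coeff_map]
  intro h'
  apply hm
  exact Subtype.ext h'

/-- The core statement: over a field `L` with a valuation `v` such that `0 < v 3 < 1`. -/
theorem core_L {L σ ρ ι : Type*} [Field L] [Infinite L] [Finite ρ] [Finite ι] [DecidableEq ρ]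
    [DecidableEq ι] (v : Valuation L ℝ≥0) (h3 : v 3 < 1) (h3ne : (3 : L) ≠ 0)
    (F : MvPolynomial (σ ⊕ ι) L) (hFdeg : ∀ j : ι, F.degreeOf (Sum.inr j) ≤ 4)
    (τ : σ → MvPolynomial ρ L) (c : ι → MvPolynomial ρ L) (G H : MvPolynomial ρ L)
    (hF : aeval (Sum.elim τ c) F = G * H ^ 2) (hGdeg : ∀ i, G.degreeOf i ≤ 4) (hH : H ≠ 0)
    (halg : AlgebraicIndependent L τ)
    (k1 k2 : ℕ) (hG : ∀ m, v (coeff m (C (9 ^ k1) * G)) ≤ 1)
    (hHi : ∀ m, v (coeff m (C (3 ^ k2) * H)) ≤ 1)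
    (hQ : ∀ m, v (coeff m (C (9 ^ (k1 + k2)) * pull τ c F)) ≤ 1)
    (b : ρ → L) (hb : ∀ i, v (b i) ≤ 1) (w : L) (hw0 : w ≠ 0)
    (hw : w ^ 2 = eval b (C (9 ^ k1) * G))
    (c1 : ℝ≥0) (hc1 : ∀ i, c1 ≤ v (eval b (pderiv i (C (9 ^ k1) * G))))
    (hs1 : v w ^ 2 < v 3 * c1 ^ 8) (c2 : ℝ≥0)
    (hc2 : ∀ j, c2 ≤ v (eval (Sum.elim b 0)
      (pderiv (Sum.inr j) (C (9 ^ (k1 + k2)) * pull τ c F))))
    (hs2 : v w ^ 2 < v 3 * c2 ^ 8) (hs3 : v w ^ 2 / c1 ^ 4 < c2)
    (g : MvPolynomial (σ ⊕ ι) L)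
    (hg : ∀ z : σ ⊕ ι → L, (∃ u : L, u ≠ 0 ∧ u ^ 2 = eval z F) → eval z g = 0) : g = 0 := by
  classical
  obtain ⟨G', hG'⟩ := exists_integral v _ hG
  obtain ⟨H', hH'⟩ := exists_integral v _ hHi
  obtain ⟨Q', hQ'⟩ := exists_integral v _ hQ
  obtain ⟨b', hb'⟩ : ∃ b' : ρ → v.integer, b = fun i => (b' i : L) :=
    ⟨fun i => ⟨b i, hb i⟩, rfl⟩
  have hinj : ∀ {α : Type _}, Function.Injective (map (σ := α) v.integer.subtype) := fun {α} =>
    map_injective _ Subtype.val_injective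
  have h9ne : (9 : L) ≠ 0 := by
    have : (9 : L) = 3 * 3 := by norm_num
    rw [this]; exact mul_ne_zero h3ne h3ne
  apply pull_injective τ c halg g
  refine core_int v h3 G' (fun i => ?_) Q' (fun j => ?_) H' ?_ ?_ b' w hw0 ?_ c1 ?_ hs1 c2 ?_ hs2
    hs3 _ ?_
  · apply degreeOf_of_map_integer v
    rw [hG']
    exact le_trans (degreeOf_C_mul_le _ _ _) (hGdeg i)
  · apply degreeOf_of_map_integer v
    rw [hQ']
    exact le_trans (degreeOf_C_mul_le _ _ _) (le_trans (degreeOf_pull_le _ _ _ _) (hFdeg j))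
  · rintro rfl
    rw [map_zero] at hH'
    have := hH'.symm
    rw [mul_eq_zero, C_eq_zero] at this
    rcases this with h | h
    · exact pow_ne_zero k2 h3ne h
    · exact hH h
  · apply hinj
    rw [specR_map, hQ', map_mul, hG', map_pow (map v.integer.subtype) H' 2, hH']
    have h0 : (fun i : ι => v.integer.subtype ((0 : ι → v.integer) i)) = (0 : ι → L) := by
      funext i; simp
    rw [h0]
    have h1 : specR (0 : ι → L) (C (9 ^ (k1 + k2)) * pull τ c F)
        = C (9 ^ (k1 + k2)) * specR (0 : ι → L) (pull τ c F) := by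
      unfold specR
      rw [map_mul, algHom_C, algebraMap_eq]
    rw [h1, specR_zero_pull, hF, mul_pow, ← C_pow]
    have h2 : ((3 : L) ^ k2) ^ 2 = 9 ^ k2 := by
      rw [← pow_mul, mul_comm, pow_mul]; norm_num
    rw [h2, pow_add, C_mul]
    ring
  · rw [hw, ← hG', hb', eval_map_integer]
  · intro i
    have := hc1 i
    rwa [← hG', pderiv_map, hb', eval_map_integer] at this
  · intro j
    have := hc2 j
    have hs : (Sum.elim b (0 : ι → L)) = fun i => ((Sum.elim b' (0 : ι → v.integer) i :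
        v.integer) : L) := by
      funext i
      rcases i with i | i
      · rw [hb']; rfl
      · simp
    rwa [← hQ', pderiv_map, hs, eval_map_integer] at this
  · rintro z ⟨u, hu0, hu⟩
    have hz : z = Sum.elim (fun i => z (Sum.inl i)) (fun j => z (Sum.inr j)) := by
      funext i; rcases i with i | i <;> rfl
    rw [hz, eval_pull]
    apply hg
    rw [hQ', map_mul, eval_C, hz, eval_pull] at hu
    refine ⟨u / 3 ^ (k1 + k2), div_ne_zero hu0 (pow_ne_zero _ h3ne), ?_⟩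
    have e2 : ((3 : L) ^ (k1 + k2)) ^ 2 = 9 ^ (k1 + k2) := by
      rw [← pow_mul, mul_comm, pow_mul]; norm_num
    rw [div_pow, hu, e2]
    have h9' : (9 : L) ^ (k1 + k2) ≠ 0 := pow_ne_zero _ h9ne
    field_simp

end Pool.Agent.Helper37.PD
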