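import Pool.Agent.Helper37.PD.Accum

/-!
# A rational curve crossing the branch divisor gives accumulating square values
-/

namespace Pool.Agent.Helper37.PD

open NNReal MvPolynomial Pool.Agent.Helper15 Filter

section Homog

variable {R R' ι : Type*} [CommRing R] [CommRing R'] [Algebra R R']

/-- The numerator of `F(c / e)`, with respect to the denominator `e ^ T`. -/
noncomputable def homog (F : MvPolynomial ι R) (c : ι → R') (e : R') (T : ℕ) : R' :=
  ∑ m ∈ F.support, algebraMap R R' (coeff m F) * (m.prod fun j k => c j ^ k) *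
    e ^ (T - m.sum fun _ k => k)

theorem homog_spec {k : Type*} [Field k] (ψ : R' →+* k) (F : MvPolynomial ι R) (c : ι → R')
    (e : R') (T : ℕ) (hT : F.totalDegree ≤ T) (he : ψ e ≠ 0) :
    ψ (homog F c e T)
      = ψ e ^ T * eval₂ (ψ.comp (algebraMap R R')) (fun j => ψ (c j) / ψ e) F := by
  unfold homog
  rw [eval₂_eq, map_sum, Finset.mul_sum]
  refine Finset.sum_congr rfl fun m hm => ?_
  have hmT : (m.sum fun _ k => k) ≤ T := le_trans (le_totalDegree hm) hT
  obtain ⟨l, hl⟩ := Nat.exists_eq_add_of_le hmT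
  have e1 : T - (m.sum fun _ k => k) = l := by omega
  rw [map_mul, map_mul, map_pow, e1, RingHom.comp_apply]
  have e2 : ψ (m.prod fun j k => c j ^ k)
      = ψ e ^ (m.sum fun _ k => k) * ∏ i ∈ m.support, (ψ (c i) / ψ e) ^ m i := by
    rw [Finsupp.prod, map_prod, Finsupp.sum, ← Finset.prod_pow_eq_pow_sum,
      ← Finset.prod_mul_distrib]
    refine Finset.prod_congr rfl fun i _ => ?_
    rw [map_pow, ← mul_pow, mul_div_cancel₀ _ he]
  rw [e2, hl, pow_add]
  ring

end Homog

theorem eventually_eval {L : Type*} [Field L] (v : Valuation L ℝ≥0) (h9 : v 9 < 1)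
    (f : Polynomial L) (ε : ℝ≥0) (hε : 0 < ε) :
    ∀ᶠ N : ℕ in atTop, v (f.eval (9 ^ N) - f.coeff 0) < ε := by
  induction f using Polynomial.induction_on' with
  | add p q hp hq =>
    filter_upwards [hp, hq] with N h1 h2
    have : (p + q).eval (9 ^ N) - (p + q).coeff 0
        = (p.eval (9 ^ N) - p.coeff 0) + (q.eval (9 ^ N) - q.coeff 0) := by
      rw [Polynomial.eval_add, Polynomial.coeff_add]; ring
    rw [this]
    exact Valuation.map_add_lt v h1 h2
  | monomial n a =>
    rcases Nat.eq_zero_or_pos n with rfl | hn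
    · filter_upwards with N
      simp [hε]
    · obtain ⟨N0, hN0⟩ := _root_.exists_pow_lt_of_lt_one
        (show (0 : ℝ≥0) < ε / (v a + 1) from div_pos hε (by positivity)) h9
      filter_upwards [eventually_ge_atTop N0] with N hN
      have h1 : (Polynomial.monomial n a).coeff 0 = 0 := by
        rw [Polynomial.coeff_monomial, if_neg (by omega)]
      rw [h1, sub_zero, Polynomial.eval_monomial, map_mul, map_pow, map_pow]
      have h2 : v (9 : L) ^ N ≤ v 9 ^ N0 := pow_le_pow_of_le_one zero_le h9.le hN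
      have h3 : (v (9 : L) ^ N) ^ n ≤ v 9 ^ N0 := by
        calc (v (9 : L) ^ N) ^ n ≤ (v (9 : L) ^ N) ^ 1 :=
              pow_le_pow_of_le_one zero_le (pow_le_one₀ zero_le h9.le) hn
          _ = v (9 : L) ^ N := pow_one _
          _ ≤ v 9 ^ N0 := h2
      calc v a * (v (9 : L) ^ N) ^ n ≤ (v a + 1) * v 9 ^ N0 :=
            mul_le_mul' (le_add_of_nonneg_right zero_le) h3
        _ < (v a + 1) * (ε / (v a + 1)) := by
            exact mul_lt_mul_of_pos_left hN0 (by positivity)
        _ = ε := by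
            rw [mul_div_cancel₀]
            positivity

theorem eventually_ne {L : Type*} [Field L] (v : Valuation L ℝ≥0) (h9 : v 9 < 1)
    (h90 : v 9 ≠ 0) (f : Polynomial L) (hf : f ≠ 0) :
    ∀ᶠ N : ℕ in atTop, f.eval (9 ^ N) ≠ 0 := by
  have hinj : Function.Injective (fun N : ℕ => (9 : L) ^ N) := by
    intro a b hab
    have h1 : v (9 : L) ^ a = v 9 ^ b := by
      rw [← map_pow, ← map_pow]; exact congrArg v hab
    exact pow_right_injective₀ (pos_iff_ne_zero.mpr h90) h9.ne h1
  have hfin : {N : ℕ | f.eval (9 ^ N) = 0}.Finite := by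
    have h1 : {z : L | f.eval z = 0}.Finite := by
      refine Set.Finite.subset (f.rootSet_finite L) ?_
      intro z hz
      rw [Polynomial.mem_rootSet]
      exact ⟨hf, by simpa using hz⟩
    exact h1.preimage hinj.injOn
  obtain ⟨B, hB⟩ := hfin.bddAbove
  filter_upwards [eventually_gt_atTop B] with N hN h
  exact absurd (hB h) (not_le.mpr hN)

/-- The fibre over one point: `φ : A' → L` is a homomorphism to a field with a valuation. -/
theorem curve_dense {A A' L ι : Type*} [CommRing A] [CommRing A'] [Algebra A A'] [Field L]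
    [Infinite L] [Finite ι] [DecidableEq ι]
    (v : Valuation L ℝ≥0) (h3 : v 3 < 1) (h30 : v 3 ≠ 0) (F : MvPolynomial ι A)
    (hdeg : ∀ j, F.degreeOf j ≤ 4) (c : ι → Polynomial A') (e p q : Polynomial A')
    (T : ℕ) (hT : F.totalDegree ≤ T)
    (hid : q ^ 2 * homog F c e T = e ^ T * Polynomial.X * p ^ 2)
    (φ : A' →+* L) (he : φ (e.coeff 0) ≠ 0) (hp : p.map φ ≠ 0) (hq : q.map φ ≠ 0)
    (hP : eval₂ (φ.comp (algebraMap A A')) (fun j => φ ((c j).coeff 0) / φ (e.coeff 0)) F = 0)
    (hd : ∀ j, eval₂ (φ.comp (algebraMap A A')) (fun j => φ ((c j).coeff 0) / φ (e.coeff 0))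
      (pderiv j F) ≠ 0)
    (g : MvPolynomial ι L)
    (hg : ∀ x : ι → L, (∃ u : L, u ≠ 0 ∧ u ^ 2 = eval₂ (φ.comp (algebraMap A A')) x F) →
      eval x g = 0) : g = 0 := by
  classical
  cases nonempty_fintype ι
  have h9eq : (9 : L) = 3 * 3 := by norm_num
  have h9 : v (9 : L) < 1 := by
    rw [h9eq, map_mul]
    calc v 3 * v 3 ≤ v 3 * 1 := mul_le_mul' le_rfl h3.le
      _ = v 3 := mul_one _
      _ < 1 := h3
  have h90 : v (9 : L) ≠ 0 := by
    rw [h9eq, map_mul]; exact mul_ne_zero h30 h30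
  have h3ne : (3 : L) ≠ 0 := (Valuation.ne_zero_iff v).mp h30
  set χ : A →+* L := φ.comp (algebraMap A A') with hχ
  set P : ι → L := fun j => φ ((c j).coeff 0) / φ (e.coeff 0) with hPdef
  refine dense_of_accumulate v h3 h30 (map χ F) ?_ P ?_ ?_ ?_ g ?_
  · intro j
    rw [degreeOf_le_iff]
    intro m hm
    have hmF : m ∈ F.support := support_map_subset _ _ hm
    exact (degreeOf_le_iff.mp (hdeg j)) m hmF
  · rw [eval_map]; exact hP
  · intro j
    rw [pderiv_map, eval_map]; exact hd j
  swap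
  · rintro x ⟨u, hu0, hu⟩
    exact hg x ⟨u, hu0, by rw [hu, eval_map]⟩
  intro ε hε
  set e0 : L := φ (e.coeff 0) with he0
  have hve0 : 0 < v e0 := pos_iff_ne_zero.mpr ((Valuation.ne_zero_iff v).mpr he)
  -- the numerators
  have hnum : ∀ᶠ N : ℕ in atTop, ∀ j, v ((((c j).map φ) * Polynomial.C e0
      - Polynomial.C (φ ((c j).coeff 0)) * e.map φ).eval (9 ^ N)) < ε * v e0 ^ 2 := by
    rw [eventually_all]
    intro j
    have := eventually_eval v h9 (((c j).map φ) * Polynomial.C e0
      - Polynomial.C (φ ((c j).coeff 0)) * e.map φ) (ε * v e0 ^ 2) (by positivity)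
    filter_upwards [this] with N hN
    have h0 : (((c j).map φ) * Polynomial.C e0
      - Polynomial.C (φ ((c j).coeff 0)) * e.map φ).coeff 0 = 0 := by
      rw [Polynomial.coeff_sub, Polynomial.coeff_mul_C, Polynomial.coeff_C_mul,
        Polynomial.coeff_map, Polynomial.coeff_map]
      ring
    rwa [h0, sub_zero] at hN
  obtain ⟨N, hN1, hN2, hN3, hN4⟩ := (hnum.and ((eventually_eval v h9 (e.map φ) (v e0) hve0).and
    ((eventually_ne v h9 h90 _ hp).and (eventually_ne v h9 h90 _ hq)))).exists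
  have hey : v ((e.map φ).eval (9 ^ N)) = v e0 := by
    rw [Polynomial.coeff_map] at hN2
    have h1 : (e.map φ).eval (9 ^ N) = e0 + ((e.map φ).eval (9 ^ N) - φ (e.coeff 0)) := by
      rw [he0]; ring
    rw [h1]
    exact Valuation.map_add_eq_of_lt_left v hN2
  have heyne : (e.map φ).eval (9 ^ N) ≠ 0 := by
    intro h
    rw [h, map_zero] at hey
    exact hve0.ne hey
  let ψ : Polynomial A' →+* L := Polynomial.eval₂RingHom φ (9 ^ N)
  have hψ : ∀ f : Polynomial A', ψ f = (f.map φ).eval (9 ^ N) := by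
    intro f
    rw [Polynomial.eval_map]; rfl
  refine ⟨fun j => ((c j).map φ).eval (9 ^ N) / (e.map φ).eval (9 ^ N), ?_,
    3 ^ N * (p.map φ).eval (9 ^ N) / (q.map φ).eval (9 ^ N), ?_, ?_⟩
  · intro j
    have h1 : ((c j).map φ).eval (9 ^ N) / (e.map φ).eval (9 ^ N) - P j
        = (((c j).map φ) * Polynomial.C e0
      - Polynomial.C (φ ((c j).coeff 0)) * e.map φ).eval (9 ^ N)
        / ((e.map φ).eval (9 ^ N) * e0) := by
      rw [hPdef, Polynomial.eval_sub, Polynomial.eval_mul, Polynomial.eval_mul,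
        Polynomial.eval_C, Polynomial.eval_C]
      show _ / _ - φ ((c j).coeff 0) / e0 = _
      field_simp
    rw [h1, map_div₀, map_mul, hey, div_lt_iff₀ (mul_pos hve0 hve0)]
    have := hN1 j
    rwa [sq] at this
  · exact div_ne_zero (mul_ne_zero (pow_ne_zero N h3ne) hN3) hN4
  · have e1 := congrArg ψ hid
    rw [map_mul, map_mul, map_mul, map_pow, map_pow, map_pow, hψ q, hψ p, hψ e,
      homog_spec ψ F c e T hT (by rw [hψ]; exact heyne)] at e1
    have e2 : ψ Polynomial.X = 9 ^ N := by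
      rw [hψ, Polynomial.map_X, Polynomial.eval_X]
    rw [e2, hψ e] at e1
    have e3 : ψ.comp (algebraMap A (Polynomial A')) = χ := by
      ext a
      rw [RingHom.comp_apply, hψ]
      have : algebraMap A (Polynomial A') a = Polynomial.C (algebraMap A A' a) := rfl
      rw [this, Polynomial.map_C, Polynomial.eval_C]
      rfl
    have e4 : (fun j => ψ (c j) / (e.map φ).eval (9 ^ N))
        = fun j => ((c j).map φ).eval (9 ^ N) / (e.map φ).eval (9 ^ N) := by
      funext j; rw [hψ]
    rw [e3, e4] at e1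
    rw [eval_map]
    have e5 : ((3 : L) ^ N) ^ 2 = 9 ^ N := by
      rw [← pow_mul, mul_comm, pow_mul]; norm_num
    rw [div_pow, mul_pow, e5]
    rw [div_eq_iff (pow_ne_zero 2 hN4)]
    have hT' : (Polynomial.eval (9 ^ N) (Polynomial.map φ e)) ^ T ≠ 0 := pow_ne_zero T heyne
    apply mul_left_cancel₀ hT'
    linear_combination -e1

end Pool.Agent.Helper37.PD
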