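import Pool.Agent.Helper37.PD.CoreL
import Pool.Agent.Helper15.Global

/-!
# The numerical conditions can be met over an algebraically closed field
-/

namespace Pool.Agent.Helper37.PD

open NNReal MvPolynomial Pool.Agent.Helper15

theorem exists_pos_lower {ι : Type*} [Finite ι] (f : ι → ℝ≥0) (hf : ∀ j, 0 < f j) :
    ∃ c : ℝ≥0, 0 < c ∧ c ≤ 1 ∧ ∀ j, c ≤ f j := by
  classical
  cases nonempty_fintype ι
  let f' : Option ι → ℝ≥0 := fun o => o.elim 1 f
  have hne : (Finset.univ : Finset (Option ι)).Nonempty := ⟨none, Finset.mem_univ _⟩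
  refine ⟨Finset.univ.inf' hne f', ?_, ?_, fun j => ?_⟩
  · rw [Finset.lt_inf'_iff]
    rintro (_ | j) _
    · exact one_pos
    · exact hf j
  · exact Finset.inf'_le f' (Finset.mem_univ none)
  · exact Finset.inf'_le f' (Finset.mem_univ (some j))

/-- The numerical conditions of `core_L` can be met near the origin. -/
theorem exists_data2 {Ω σ ρ ι : Type*} [Field Ω] [IsAlgClosed Ω] [Finite ρ] [Finite ι]
    [DecidableEq ρ] (v : Valuation Ω ℝ≥0) (h3 : v 3 < 1) (h30 : v 3 ≠ 0)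
    (F : MvPolynomial (σ ⊕ ι) Ω) (τ : σ → MvPolynomial ρ Ω) (c : ι → MvPolynomial ρ Ω)
    (G H : MvPolynomial ρ Ω) (hGdeg : ∀ i, G.degreeOf i ≤ 4)
    (h0 : eval 0 G = 0) (hG1 : ∀ i, eval 0 (pderiv i G) ≠ 0)
    (hx : ∀ j : ι, eval 0 (pderiv (Sum.inr j) (pull τ c F)) ≠ 0) (j0 : ρ) :
    ∃ (k1 k2 N : ℕ) (w : Ω) (d : ℝ≥0),
      (∀ m, v (coeff m (C (9 ^ k1) * G)) ≤ 1) ∧
      (∀ m, v (coeff m (C (3 ^ k2) * H)) ≤ 1) ∧
      (∀ m, v (coeff m (C (9 ^ (k1 + k2)) * pull τ c F)) ≤ 1) ∧ w ≠ 0 ∧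
      w ^ 2 = eval (basePt j0 N) (C (9 ^ k1) * G) ∧
      (∀ i, d ≤ v (eval (basePt j0 N) (pderiv i (C (9 ^ k1) * G)))) ∧
      (∀ j : ι, d ≤ v (eval (Sum.elim (basePt j0 N) 0)
        (pderiv (Sum.inr j) (C (9 ^ (k1 + k2)) * pull τ c F)))) ∧
      v w ^ 2 < v 3 * d ^ 8 ∧ v w ^ 2 / d ^ 4 < d := by
  classical
  cases nonempty_fintype ρ
  cases nonempty_fintype ι
  have h3ne : (3 : Ω) ≠ 0 := (Valuation.ne_zero_iff v).mp h30
  have h9ne : (9 : Ω) ≠ 0 := by
    have : (9 : Ω) = 3 * 3 := by norm_num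
    rw [this]; exact mul_ne_zero h3ne h3ne
  have hv9 : v (9 : Ω) ≤ 1 := by
    have : (9 : Ω) = 3 * 3 := by norm_num
    rw [this, map_mul]
    exact mul_le_one' h3.le h3.le
  obtain ⟨k1, hk1⟩ := exists_pow_mul_le_one v h3 G.support (fun m => coeff m G)
  obtain ⟨l, hl⟩ := exists_pow_mul_le_one v h3 H.support (fun m => coeff m H)
  obtain ⟨l', hl'⟩ := exists_pow_mul_le_one v h3 (pull τ c F).support
    (fun m => coeff m (pull τ c F))
  obtain ⟨k2, hk2⟩ : ∃ k2, k2 = 2 * l + l' := ⟨_, rfl⟩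
  have hG : ∀ m, v (coeff m (C (9 ^ k1) * G)) ≤ 1 := by
    intro m
    rw [coeff_C_mul]
    by_cases hm : m ∈ G.support
    · exact hk1 m hm
    · rw [notMem_support_iff.mp hm, mul_zero, map_zero]; exact zero_le
  have hH : ∀ m, v (coeff m (C (3 ^ k2) * H)) ≤ 1 := by
    intro m
    rw [coeff_C_mul]
    by_cases hm : m ∈ H.support
    · have h1 : (3 : Ω) ^ k2 * coeff m H = 3 ^ l' * (9 ^ l * coeff m H) := by
        rw [hk2, pow_add, pow_mul]; norm_num; ring
      rw [h1, map_mul, map_pow]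
      exact mul_le_one' (pow_le_one₀ zero_le h3.le) (hl m hm)
    · rw [notMem_support_iff.mp hm, mul_zero, map_zero]; exact zero_le
  have hQ : ∀ m, v (coeff m (C (9 ^ (k1 + k2)) * pull τ c F)) ≤ 1 := by
    intro m
    rw [coeff_C_mul]
    by_cases hm : m ∈ (pull τ c F).support
    · have h1 : (9 : Ω) ^ (k1 + k2) * coeff m (pull τ c F)
          = 9 ^ (k1 + 2 * l) * (9 ^ l' * coeff m (pull τ c F)) := by
        rw [hk2, ← mul_assoc, ← pow_add]; congr 2; ring
      rw [h1, map_mul, map_pow]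
      exact mul_le_one' (pow_le_one₀ zero_le hv9) (hl' m hm)
    · rw [notMem_support_iff.mp hm, mul_zero, map_zero]; exact zero_le
  obtain ⟨G', hG'⟩ := exists_integral v _ hG
  obtain ⟨Q', hQ'⟩ := exists_integral v _ hQ
  set G1 : MvPolynomial ρ Ω := C (9 ^ k1) * G with hG1def
  set Q1 : MvPolynomial (ρ ⊕ ι) Ω := C (9 ^ (k1 + k2)) * pull τ c F with hQ1def
  have hG10 : eval (0 : ρ → Ω) G1 = 0 := by rw [hG1def, map_mul, h0, mul_zero]
  have hdG : ∀ i, eval (0 : ρ → Ω) (pderiv i G1) ≠ 0 := by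
    intro i
    rw [hG1def, pderiv_C_mul, map_mul, eval_C]
    exact mul_ne_zero (pow_ne_zero k1 h9ne) (hG1 i)
  have hdQ : ∀ j : ι, eval (0 : ρ ⊕ ι → Ω) (pderiv (Sum.inr j) Q1) ≠ 0 := by
    intro j
    rw [hQ1def, pderiv_C_mul, map_mul, eval_C]
    exact mul_ne_zero (pow_ne_zero _ h9ne) (hx j)
  obtain ⟨d1, hd1, hd11, hd1'⟩ := exists_pos_lower (fun i : ρ => v (eval (0 : ρ → Ω)
    (pderiv i G1))) (fun i => pos_iff_ne_zero.mpr ((Valuation.ne_zero_iff v).mpr (hdG i)))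
  obtain ⟨d2, hd2, hd21, hd2'⟩ := exists_pos_lower (fun j : ι => v (eval (0 : ρ ⊕ ι → Ω)
    (pderiv (Sum.inr j) Q1)))
    (fun i => pos_iff_ne_zero.mpr ((Valuation.ne_zero_iff v).mpr (hdQ i)))
  obtain ⟨d, hd, hd1le, hdd1, hdd2⟩ : ∃ d : ℝ≥0, 0 < d ∧ d ≤ 1 ∧ d ≤ d1 ∧ d ≤ d2 :=
    ⟨min d1 d2, lt_min hd1 hd2, le_trans (min_le_left _ _) hd11, min_le_left _ _,
      min_le_right _ _⟩
  obtain ⟨N, hN⟩ := _root_.exists_pow_lt_of_lt_one (show (0 : ℝ≥0) < v 3 * d ^ 8 from
    mul_pos (pos_iff_ne_zero.mpr h30) (pow_pos hd 8)) h3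
  have hNd : v 3 ^ N < d := by
    calc v 3 ^ N < v 3 * d ^ 8 := hN
      _ ≤ 1 * d ^ 1 := mul_le_mul' h3.le (pow_le_pow_of_le_one zero_le hd1le (by norm_num))
      _ = d := by rw [one_mul, pow_one]
  obtain ⟨w, hw⟩ := IsAlgClosed.exists_pow_nat_eq (eval (basePt j0 N) G1) (n := 2) (by norm_num)
  have hb : (basePt j0 N : ρ → Ω) = fun i => ((basePt j0 N : ρ → v.integer) i : Ω) := by
    funext i
    unfold basePt
    by_cases h : i = j0
    · subst h; rw [Function.update_self, Function.update_self]; push_cast; rfl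
    · rw [Function.update_of_ne h, Function.update_of_ne h]; simp
  have hz0 : (0 : ρ → Ω) = fun i => (((0 : ρ → v.integer) i : v.integer) : Ω) := by
    funext i; simp
  have hz0' : (0 : ρ ⊕ ι → Ω) = fun i => (((0 : ρ ⊕ ι → v.integer) i : v.integer) : Ω) := by
    funext i; simp
  have hb2 : (Sum.elim (basePt j0 N) 0 : ρ ⊕ ι → Ω)
      = fun i => ((Sum.elim (basePt j0 N) 0 : ρ ⊕ ι → v.integer) i : Ω) := by
    funext i
    rcases i with i | i
    · rw [hb]; rfl
    · simp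
  have hdist : ∀ i, v (((basePt j0 N : ρ → v.integer) i - (0 : ρ → v.integer) i : v.integer) : Ω)
      ≤ v 3 ^ N := by
    intro i
    unfold basePt
    by_cases h : i = j0
    · subst h
      rw [Function.update_self]
      push_cast
      rw [Pi.zero_apply]
      push_cast
      rw [sub_zero, map_pow]
      exact le_rfl
    · rw [Function.update_of_ne h]; simp
  have hlipG : ∀ P : MvPolynomial ρ v.integer,
      v (eval (basePt j0 N) (map v.integer.subtype P)
        - eval (0 : ρ → Ω) (map v.integer.subtype P)) ≤ v 3 ^ N := by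
    intro P
    have := lipschitz v P (v 3 ^ N) _ _ hdist
    rw [hb, hz0, eval_map_integer, eval_map_integer]
    exact_mod_cast this
  have hlipQ : ∀ P : MvPolynomial (ρ ⊕ ι) v.integer,
      v (eval (Sum.elim (basePt j0 N) 0) (map v.integer.subtype P)
        - eval (0 : ρ ⊕ ι → Ω) (map v.integer.subtype P)) ≤ v 3 ^ N := by
    intro P
    have := lipschitz v P (v 3 ^ N) (Sum.elim (basePt j0 N) 0) 0 (by
      rintro (i | i)
      · exact hdist i
      · simp)
    rw [hb2, hz0', eval_map_integer, eval_map_integer]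
    exact_mod_cast this
  have hwN : v w ^ 2 ≤ v 3 ^ N := by
    have := hlipG G'
    rw [hG', hG10, sub_zero, ← hw, map_pow] at this
    exact this
  refine ⟨k1, k2, N, w, d, hG, hH, hQ, ?_, hw, ?_, ?_, ?_, ?_⟩
  · -- `w ≠ 0`
    intro hw0
    rw [hw0] at hw
    have hval : eval (basePt j0 N) G1 = 0 := by
      rw [← hw]; simp
    have hdeg' : G'.degreeOf j0 ≤ 4 := by
      apply degreeOf_of_map_integer v
      rw [hG']
      exact le_trans (degreeOf_C_mul_le _ _ _) (hGdeg j0)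
    obtain ⟨f2, f3, f4, hf⟩ := taylor_four G' j0 hdeg' (0 : ρ → v.integer)
    have hb' : (basePt j0 N : ρ → v.integer)
        = Function.update (0 : ρ → v.integer) j0 ((0 : ρ → v.integer) j0 + 3 ^ N) := by
      unfold basePt; simp
    have e1 := hf (3 ^ N)
    rw [← hb'] at e1
    have e2 : eval (basePt j0 N) G' = 0 := by
      apply Subtype.ext
      have := eval_map_integer v G' (basePt j0 N)
      rw [← hb, hG', hval] at this
      rw [← this]; rfl
    have e3 : eval (0 : ρ → v.integer) G' = 0 := by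
      apply Subtype.ext
      have := eval_map_integer v G' 0
      rw [← hz0, hG', hG10] at this
      rw [← this]; rfl
    rw [e2, e3, zero_add] at e1
    have h3N : (3 : v.integer) ^ N ≠ 0 := by
      refine pow_ne_zero N ?_
      intro h
      apply h3ne
      have := congrArg (fun z : v.integer => (z : Ω)) h
      exact this
    have e4 : eval (0 : ρ → v.integer) (pderiv j0 G')
        = - ((f2 + f3 * 3 ^ N + f4 * (3 ^ N) ^ 2) * 3 ^ N) := by
      have : (3 : v.integer) ^ N * (eval (0 : ρ → v.integer) (pderiv j0 G')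
        + (f2 + f3 * 3 ^ N + f4 * (3 ^ N) ^ 2) * 3 ^ N) = 0 := by
        rw [e1]; ring
      rcases mul_eq_zero.mp this with h | h
      · exact absurd h h3N
      · exact eq_neg_of_add_eq_zero_left h
    have e5 : v (eval (0 : ρ → Ω) (pderiv j0 G1)) ≤ v 3 ^ N := by
      rw [← hG', pderiv_map, hz0, eval_map_integer, e4]
      have : (((-((f2 + f3 * 3 ^ N + f4 * (3 ^ N) ^ 2) * 3 ^ N) : v.integer)) : Ω)
          = -((((f2 + f3 * 3 ^ N + f4 * (3 ^ N) ^ 2 : v.integer)) : Ω) * 3 ^ N) := by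
        push_cast; rfl
      rw [this, Valuation.map_neg, map_mul, map_pow]
      calc _ ≤ 1 * v 3 ^ N := mul_le_mul'
            (f2 + f3 * 3 ^ N + f4 * (3 ^ N) ^ 2 : v.integer).2 le_rfl
        _ = v 3 ^ N := one_mul _
    exact absurd (lt_of_le_of_lt (le_trans (le_trans hdd1 (hd1' j0)) e5) hNd) (lt_irrefl _)
  · intro i
    have h2 : v (eval (basePt j0 N) (pderiv i G1) - eval (0 : ρ → Ω) (pderiv i G1))
        < v (eval (0 : ρ → Ω) (pderiv i G1)) := by
      refine lt_of_lt_of_le (lt_of_le_of_lt ?_ hNd) (le_trans hdd1 (hd1' i))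
      rw [← hG', pderiv_map]
      exact hlipG _
    have h3' : eval (basePt j0 N) (pderiv i G1) = eval (0 : ρ → Ω) (pderiv i G1)
        + (eval (basePt j0 N) (pderiv i G1) - eval (0 : ρ → Ω) (pderiv i G1)) := by ring
    rw [h3', Valuation.map_add_eq_of_lt_left v h2]
    exact le_trans hdd1 (hd1' i)
  · intro j
    have h2 : v (eval (Sum.elim (basePt j0 N) 0) (pderiv (Sum.inr j) Q1)
        - eval (0 : ρ ⊕ ι → Ω) (pderiv (Sum.inr j) Q1))
        < v (eval (0 : ρ ⊕ ι → Ω) (pderiv (Sum.inr j) Q1)) := by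
      refine lt_of_lt_of_le (lt_of_le_of_lt ?_ hNd) (le_trans hdd2 (hd2' j))
      rw [← hQ', pderiv_map]
      exact hlipQ _
    have h3' : eval (Sum.elim (basePt j0 N) 0) (pderiv (Sum.inr j) Q1)
        = eval (0 : ρ ⊕ ι → Ω) (pderiv (Sum.inr j) Q1)
        + (eval (Sum.elim (basePt j0 N) 0) (pderiv (Sum.inr j) Q1)
          - eval (0 : ρ ⊕ ι → Ω) (pderiv (Sum.inr j) Q1)) := by ring
    rw [h3', Valuation.map_add_eq_of_lt_left v h2]
    exact le_trans hdd2 (hd2' j)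
  · exact lt_of_le_of_lt hwN hN
  · rw [div_lt_iff₀ (pow_pos hd 4)]
    calc v w ^ 2 ≤ v 3 ^ N := hwN
      _ < v 3 * d ^ 8 := hN
      _ ≤ 1 * d ^ 5 := mul_le_mul' h3.le (pow_le_pow_of_le_one zero_le hd1le (by norm_num))
      _ = d * d ^ 4 := by ring

end Pool.Agent.Helper37.PD
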