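import Pool.Agent.Helper37.PD.Data
import Pool.Agent.Helper15.Cover

/-!
# Families of double covers over a number field
-/

namespace Pool.Agent.Helper37.PD

open NNReal MvPolynomial Pool.Agent.Helper15

theorem map_aeval_mv {R S α β : Type*} [CommRing R] [CommRing S] (φ : R →+* S)
    (f : α → MvPolynomial β R) (p : MvPolynomial α R) :
    map φ (aeval f p) = aeval (fun i => map φ (f i)) (map φ p) := by
  induction p using MvPolynomial.induction_on with
  | C r => simp only [algHom_C, algebraMap_eq, map_C]
  | add p q hp hq => simp only [map_add, hp, hq]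
  | mul_X p i hp => simp only [map_mul, hp, aeval_X, map_X]

theorem translate_injective {R ι : Type*} [CommRing R] [IsDomain R] [Infinite R] (a : ι → R) :
    Function.Injective (aeval (R := R) (fun i => X i + C (a i) : ι → MvPolynomial ι R)) := by
  rw [injective_iff_map_eq_zero]
  intro p hp
  apply MvPolynomial.funext
  intro x
  have := eval_translate a (x - a) p
  unfold Helper15.translate at this
  rw [hp, sub_add_cancel] at this
  rw [← this]; simp

theorem ringHom_eval {R S α : Type*} [CommRing R] [CommRing S] (φ : R →+* S) (x : α → R)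
    (P : MvPolynomial α R) : φ (eval x P) = eval (fun i => φ (x i)) (map φ P) := by
  rw [eval_map, ← MvPolynomial.eval₂_id, MvPolynomial.hom_eval₂]
  rfl

/-- The case where the distinguished point is the origin. -/
theorem family_zero (K : Type*) [Field K] [NumberField K] {σ ρ ι : Type*} [Finite σ] [Finite ρ]
    [Finite ι] [Nonempty ρ] (F : MvPolynomial (σ ⊕ ι) K)
    (hFdeg : ∀ j : ι, F.degreeOf (Sum.inr j) ≤ 4)
    (τ : σ → MvPolynomial ρ (AlgebraicClosure K)) (c : ι → MvPolynomial ρ (AlgebraicClosure K))
    (G H : MvPolynomial ρ (AlgebraicClosure K))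
    (hF : aeval (Sum.elim τ c) F = G * H ^ 2) (hGdeg : ∀ i, G.degreeOf i ≤ 4) (hH : H ≠ 0)
    (halg : AlgebraicIndependent (AlgebraicClosure K) τ)
    (h0 : eval (0 : ρ → AlgebraicClosure K) G = 0)
    (hG1 : ∀ i, eval (0 : ρ → AlgebraicClosure K) (pderiv i G) ≠ 0)
    (hx : ∀ j : ι, aeval (Sum.elim (fun a => eval (0 : ρ → AlgebraicClosure K) (τ a))
      (fun j => eval (0 : ρ → AlgebraicClosure K) (c j))) (pderiv (Sum.inr j) F) ≠ 0) :
    ∃ L : IntermediateField K (AlgebraicClosure K), FiniteDimensional K L ∧
      ∀ g : MvPolynomial (σ ⊕ ι) L, (∀ x : σ ⊕ ι → L, (∃ u : L, u ≠ 0 ∧ u ^ 2 = aeval x F) →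
        eval x g = 0) → g = 0 := by
  classical
  cases nonempty_fintype σ
  cases nonempty_fintype ρ
  cases nonempty_fintype ι
  have : Algebra.IsAlgebraic ℚ (AlgebraicClosure K) :=
    Algebra.IsAlgebraic.trans ℚ K (AlgebraicClosure K)
  have : CharZero (AlgebraicClosure K) :=
    charZero_of_injective_algebraMap (algebraMap K (AlgebraicClosure K)).injective
  have : Fact (Nat.Prime 3) := ⟨Nat.prime_three⟩
  obtain ⟨v, h3, h30⟩ := exists_valuation 3 (AlgebraicClosure K)
  push_cast at h3 h30
  obtain ⟨j0⟩ := (inferInstance : Nonempty ρ)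
  set F' : MvPolynomial (σ ⊕ ι) (AlgebraicClosure K) := map (algebraMap K _) F with hF'
  have hx' : ∀ j : ι, eval (0 : ρ ⊕ ι → AlgebraicClosure K)
      (pderiv (Sum.inr j) (pull τ c F')) ≠ 0 := by
    intro j
    have e0 : (0 : ρ ⊕ ι → AlgebraicClosure K)
        = Sum.elim (0 : ρ → AlgebraicClosure K) (0 : ι → AlgebraicClosure K) := by
      funext i; rcases i with i | i <;> rfl
    rw [pderiv_pull, e0, eval_pull, hF', pderiv_map, eval_map]
    have := hx j
    rw [aeval_def] at this
    simpa using this
  obtain ⟨k1, k2, N, w, d, hGi, hHi, hQi, hw0, hw, hd1, hd2, hs1, hs2⟩ :=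
    exists_data2 v h3 h30 F' τ c G H hGdeg h0 hG1 hx' j0
  -- the number field
  set S : Set (AlgebraicClosure K) := (⋃ a : σ, ((τ a).coeffs : Set (AlgebraicClosure K))) ∪
    (⋃ j : ι, ((c j).coeffs : Set (AlgebraicClosure K))) ∪ (G.coeffs : Set (AlgebraicClosure K))
    ∪ (H.coeffs : Set (AlgebraicClosure K)) ∪ {w} with hS
  set L : IntermediateField K (AlgebraicClosure K) := IntermediateField.adjoin K S with hL
  have hSL : ∀ z ∈ S, z ∈ L := fun z hz => IntermediateField.subset_adjoin _ _ hz
  have hSfin : S.Finite := by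
    refine Set.Finite.union (Set.Finite.union (Set.Finite.union (Set.Finite.union ?_ ?_) ?_) ?_)
      (Set.finite_singleton w)
    · exact Set.finite_iUnion fun a => Finset.finite_toSet _
    · exact Set.finite_iUnion fun a => Finset.finite_toSet _
    · exact Finset.finite_toSet _
    · exact Finset.finite_toSet _
  have hfin : FiniteDimensional K L := by
    have : Finite S := hSfin
    exact IntermediateField.finiteDimensional_adjoin fun x _ => Algebra.IsIntegral.isIntegral x
  have hlift : ∀ p : MvPolynomial ρ (AlgebraicClosure K),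
      (p.coeffs : Set (AlgebraicClosure K)) ⊆ S →
      ∃ q : MvPolynomial ρ L, map (algebraMap L (AlgebraicClosure K)) q = p := by
    intro p hp
    have : p ∈ Set.range (map (σ := ρ) (algebraMap L (AlgebraicClosure K))) := by
      rw [mem_range_map_iff_coeffs_subset]
      intro z hz
      exact ⟨⟨z, hSL z (hp hz)⟩, rfl⟩
    exact this
  have hτS : ∀ a, ((τ a).coeffs : Set (AlgebraicClosure K)) ⊆ S := fun a z hz =>
    Or.inl (Or.inl (Or.inl (Or.inl (Set.mem_iUnion.mpr ⟨a, hz⟩))))
  have hcS : ∀ j, ((c j).coeffs : Set (AlgebraicClosure K)) ⊆ S := fun a z hz =>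
    Or.inl (Or.inl (Or.inl (Or.inr (Set.mem_iUnion.mpr ⟨a, hz⟩))))
  have hGS : ((G).coeffs : Set (AlgebraicClosure K)) ⊆ S := fun z hz =>
    Or.inl (Or.inl (Or.inr hz))
  have hHS : ((H).coeffs : Set (AlgebraicClosure K)) ⊆ S := fun z hz =>
    Or.inl (Or.inr hz)
  choose τL hτL using fun a => hlift (τ a) (hτS a)
  choose cL hcL using fun j => hlift (c j) (hcS j)
  obtain ⟨GLL, hGL'⟩ := hlift G hGS
  obtain ⟨HL, hHL⟩ := hlift H hHS
  obtain ⟨wL, hwL⟩ : ∃ wL : L, algebraMap L (AlgebraicClosure K) wL = w :=
    ⟨⟨w, hSL w (Or.inr rfl)⟩, rfl⟩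
  refine ⟨L, hfin, fun g hg => ?_⟩
  have hcz : CharZero L := charZero_of_injective_algebraMap (algebraMap K L).injective
  let FL : MvPolynomial (σ ⊕ ι) L := map (algebraMap K L) F
  have hmapFL : map (algebraMap L (AlgebraicClosure K)) FL = F' := by
    show map _ (map _ F) = _
    rw [map_map, hF', ← IsScalarTower.algebraMap_eq]
  let vL : Valuation L ℝ≥0 := v.comap (algebraMap L (AlgebraicClosure K))
  have hvL : ∀ z : L, vL z = v (algebraMap L (AlgebraicClosure K) z) := fun z => rfl
  have hmapG : map (algebraMap L (AlgebraicClosure K)) (C (9 ^ k1) * GLL) = C (9 ^ k1) * G := by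
    rw [map_mul, hGL', map_C, map_pow, map_ofNat]
  have hmapH : map (algebraMap L (AlgebraicClosure K)) (C (3 ^ k2) * HL) = C (3 ^ k2) * H := by
    rw [map_mul, hHL, map_C, map_pow, map_ofNat]
  have hmapQ : map (algebraMap L (AlgebraicClosure K)) (C (9 ^ (k1 + k2)) * pull τL cL FL)
      = C (9 ^ (k1 + k2)) * pull τ c F' := by
    rw [map_mul, pull_map, hmapFL, map_C, map_pow, map_ofNat]
    simp only [hτL, hcL]
  have hbase : (fun i => algebraMap L (AlgebraicClosure K) ((basePt j0 N : ρ → L) i))
      = basePt j0 N := by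
    funext i
    unfold basePt
    by_cases h : i = j0
    · subst h; rw [Function.update_self, Function.update_self, map_pow, map_ofNat]
    · rw [Function.update_of_ne h, Function.update_of_ne h]; simp
  have hbase2 : (fun i => algebraMap L (AlgebraicClosure K)
      ((Sum.elim (basePt j0 N) 0 : ρ ⊕ ι → L) i)) = Sum.elim (basePt j0 N) 0 := by
    funext i
    rcases i with i | i
    · exact congrFun hbase i
    · simp
  refine core_L vL (by rw [hvL, map_ofNat]; exact h3) (by norm_num) FL ?_ τL cL GLL HL ?_ ?_ ?_ ?_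
    k1 k2 ?_ ?_ ?_ (basePt j0 N) ?_ wL ?_ ?_ d ?_ ?_ d ?_ ?_ ?_ g ?_
  · intro j
    rw [degreeOf_le_iff]
    intro m hm
    have hmF : m ∈ F.support := support_map_subset _ _ hm
    exact (degreeOf_le_iff.mp (hFdeg j)) m hmF
  · apply map_injective (algebraMap L (AlgebraicClosure K)) (algebraMap L (AlgebraicClosure K)).injective
    rw [map_aeval_mv, hmapFL, map_mul, hGL',
      map_pow (map (algebraMap L (AlgebraicClosure K))) HL 2, hHL, ← hF, hF']
    have e1 : (fun i => map (algebraMap L (AlgebraicClosure K)) (Sum.elim τL cL i))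
        = Sum.elim τ c := by
      funext i
      rcases i with i | i
      · exact hτL i
      · exact hcL i
    rw [e1, aeval_map_algebraMap]
  · intro i
    rw [degreeOf_le_iff]
    intro m hm
    have hmF : m ∈ G.support := by
      rw [mem_support_iff] at hm ⊢
      rw [← hGL', coeff_map]
      intro h
      exact hm ((map_eq_zero_iff _ (algebraMap L (AlgebraicClosure K)).injective).mp h)
    exact (degreeOf_le_iff.mp (hGdeg i)) m hmF
  · rintro rfl
    rw [map_zero] at hHL
    exact hH hHL.symm
  · rw [algebraicIndependent_iff]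
    intro p hp
    have e1 := map_aeval_mv (algebraMap L (AlgebraicClosure K)) τL p
    rw [hp, map_zero] at e1
    simp only [hτL] at e1
    have e2 := AlgebraicIndependent.eq_zero_of_aeval_eq_zero halg _ e1.symm
    exact (map_eq_zero_iff _ (map_injective (algebraMap L (AlgebraicClosure K))
      (algebraMap L (AlgebraicClosure K)).injective)).mp e2
  · intro m
    rw [hvL, ← coeff_map, hmapG]; exact hGi m
  · intro m
    rw [hvL, ← coeff_map, hmapH]; exact hHi m
  · intro m
    rw [hvL, ← coeff_map, hmapQ]; exact hQi m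
  · intro i
    rw [hvL]
    unfold basePt
    by_cases h : i = j0
    · subst h
      rw [Function.update_self, map_pow, map_ofNat, map_pow]
      exact pow_le_one₀ zero_le h3.le
    · rw [Function.update_of_ne h, Pi.zero_apply, map_zero, map_zero]; exact zero_le
  · rintro rfl
    rw [map_zero] at hwL
    exact hw0 hwL.symm
  · apply (algebraMap L (AlgebraicClosure K)).injective
    rw [ringHom_eval, hmapG, map_pow, hwL, hbase]
    exact hw
  · intro i
    rw [hvL, ringHom_eval, ← pderiv_map, hmapG, hbase]
    exact hd1 i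
  · rw [hvL, hvL, hwL, map_ofNat]; exact hs1
  · intro j
    rw [hvL, ringHom_eval, ← pderiv_map, hmapQ, hbase2]
    exact hd2 j
  · rw [hvL, hvL, hwL, map_ofNat]; exact hs1
  · rw [hvL, hwL]; exact hs2
  · rintro z ⟨u, hu0, hu⟩
    apply hg z ⟨u, hu0, ?_⟩
    rw [hu]
    show eval z (map _ F) = _
    rw [eval_map, aeval_def]

/-- **Families of double covers.**  Over a number field `K`, let `F(t, x)` be a polynomial of
degree at most four in each `x_j`, and suppose that over the algebraic closure
`F(τ(s), c(s)) = G(s) H(s) ^ 2` with `G` of degree at most four in each variable and `τ`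
algebraically independent, that `G` vanishes at `s0` but none of its partial derivatives does, and
that no partial derivative of `F` in the directions `x_j` vanishes at `(τ(s0), c(s0))`.  Then over
a finite extension of `K` the set of points at which `F` is a nonzero square is Zariski dense. -/
theorem family_numberField (K : Type*) [Field K] [NumberField K] {σ ρ ι : Type*} [Finite σ]
    [Finite ρ] [Finite ι] [Nonempty ρ] (F : MvPolynomial (σ ⊕ ι) K)
    (hFdeg : ∀ j : ι, F.degreeOf (Sum.inr j) ≤ 4)
    (τ : σ → MvPolynomial ρ (AlgebraicClosure K)) (c : ι → MvPolynomial ρ (AlgebraicClosure K))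
    (G H : MvPolynomial ρ (AlgebraicClosure K))
    (hF : aeval (Sum.elim τ c) F = G * H ^ 2) (hGdeg : ∀ i, G.degreeOf i ≤ 4) (hH : H ≠ 0)
    (halg : AlgebraicIndependent (AlgebraicClosure K) τ) (s0 : ρ → AlgebraicClosure K)
    (h0 : eval s0 G = 0) (hG1 : ∀ i, eval s0 (pderiv i G) ≠ 0)
    (hx : ∀ j : ι, aeval (Sum.elim (fun a => eval s0 (τ a)) (fun j => eval s0 (c j)))
      (pderiv (Sum.inr j) F) ≠ 0) :
    ∃ L : IntermediateField K (AlgebraicClosure K), FiniteDimensional K L ∧
      ∀ g : MvPolynomial (σ ⊕ ι) L, (∀ x : σ ⊕ ι → L, (∃ u : L, u ≠ 0 ∧ u ^ 2 = aeval x F) →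
        eval x g = 0) → g = 0 := by
  classical
  have hev : ∀ p : MvPolynomial ρ (AlgebraicClosure K), eval 0 (Helper15.translate s0 p) = eval s0 p := by
    intro p
    rw [eval_translate, zero_add]
  refine family_zero K F hFdeg (fun a => Helper15.translate s0 (τ a)) (fun j => Helper15.translate s0 (c j))
    (Helper15.translate s0 G) (Helper15.translate s0 H) ?_ ?_ ?_ ?_ ?_ ?_ ?_
  · have e1 : (Sum.elim (fun a => Helper15.translate s0 (τ a)) (fun j => Helper15.translate s0 (c j)))
        = fun i => (((aeval (fun i => X i + C (s0 i)) :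
          MvPolynomial ρ (AlgebraicClosure K) →ₐ[AlgebraicClosure K]
            MvPolynomial ρ (AlgebraicClosure K)).restrictScalars K) (Sum.elim τ c i)) := by
      funext i
      rcases i with i | i <;> rfl
    rw [e1]
    have e2 := (MvPolynomial.comp_aeval_apply (f := Sum.elim τ c)
      ((aeval (fun i => X i + C (s0 i)) :
          MvPolynomial ρ (AlgebraicClosure K) →ₐ[AlgebraicClosure K]
            MvPolynomial ρ (AlgebraicClosure K)).restrictScalars K) F)
    rw [← e2, hF]
    show aeval (fun i => X i + C (s0 i)) (G * H ^ 2) = _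
    rw [map_mul, map_pow]
    rfl
  · intro i
    exact le_trans (degreeOf_translate_le _ _ _) (hGdeg i)
  · intro h
    apply hH
    exact (map_eq_zero_iff _ (translate_injective s0)).mp h
  · exact halg.map' (translate_injective s0)
  · rw [hev, h0]
  · intro i
    rw [eval_translate_pderiv_aux]
    exact hG1 i
  · intro j
    simp only [hev]
    exact hx j

end Pool.Agent.Helper37.PD
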