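import Pool.Agent.Helper37.PD.Core

/-!
# Pulling back along a multisection
-/

namespace Pool.Agent.Helper37.PD

open NNReal MvPolynomial Pool.Agent.Helper15

section Pull

variable {R σ ρ ι : Type*} [CommRing R]

/-- The polynomial `F(τ(s), c(s) + x)` in the variables `(s, x)`. -/
noncomputable def pull (τ : σ → MvPolynomial ρ R) (c : ι → MvPolynomial ρ R)
    (F : MvPolynomial (σ ⊕ ι) R) : MvPolynomial (ρ ⊕ ι) R :=
  aeval (Sum.elim (fun a => rename Sum.inl (τ a))
    (fun j => rename Sum.inl (c j) + X (Sum.inr j))) F

theorem eval_pull (τ : σ → MvPolynomial ρ R) (c : ι → MvPolynomial ρ R)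
    (F : MvPolynomial (σ ⊕ ι) R) (s : ρ → R) (x : ι → R) :
    eval (Sum.elim s x) (pull τ c F)
      = eval (Sum.elim (fun a => eval s (τ a)) (fun j => eval s (c j) + x j)) F := by
  unfold pull
  rw [aeval_def, MvPolynomial.hom_eval₂, MvPolynomial.eval, ← MvPolynomial.coe_eval₂Hom]
  congr 2
  · ext r; simp
  · funext i
    rcases i with i | i
    · simp only [Sum.elim_inl, Function.comp]
      show eval _ (rename Sum.inl (τ i)) = _
      rw [eval_rename]; rfl
    · simp only [Sum.elim_inr, Function.comp]
      show eval _ (rename Sum.inl (c i) + X (Sum.inr i)) = _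
      rw [map_add, eval_rename, eval_X]; rfl

theorem specR_zero_pull (τ : σ → MvPolynomial ρ R) (c : ι → MvPolynomial ρ R)
    (F : MvPolynomial (σ ⊕ ι) R) :
    specR 0 (pull τ c F) = aeval (Sum.elim τ c) F := by
  unfold specR pull
  induction F using MvPolynomial.induction_on with
  | C r => simp
  | add p q hp hq => simp only [map_add, hp, hq]
  | mul_X p i hp =>
    simp only [map_mul, hp, aeval_X]
    congr 1
    rcases i with i | i
    · simp only [Sum.elim_inl]
      rw [aeval_rename]
      exact aeval_X_left_apply _
    · simp only [Sum.elim_inr, map_add, aeval_X]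
      rw [aeval_rename]
      simp only [Pi.zero_apply, map_zero, add_zero]
      exact aeval_X_left_apply _

theorem pderiv_rename_inl (j : ι) (p : MvPolynomial ρ R) :
    pderiv (Sum.inr j) (rename Sum.inl p : MvPolynomial (ρ ⊕ ι) R) = 0 := by
  induction p using MvPolynomial.induction_on with
  | C r => simp
  | add p q hp hq => simp only [map_add, hp, hq, add_zero]
  | mul_X p i hp =>
    rw [map_mul, rename_X, Derivation.leibniz, hp, pderiv_X_of_ne (by simp)]
    simp

theorem pderiv_pull (τ : σ → MvPolynomial ρ R) (c : ι → MvPolynomial ρ R)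
    (F : MvPolynomial (σ ⊕ ι) R) (j : ι) :
    pderiv (Sum.inr j) (pull τ c F) = pull τ c (pderiv (Sum.inr j) F) := by
  classical
  unfold pull
  induction F using MvPolynomial.induction_on with
  | C r => simp
  | add p q hp hq => simp only [map_add, hp, hq]
  | mul_X p i hp =>
    simp only [map_mul, Derivation.leibniz, smul_eq_mul, hp, aeval_X, map_add]
    rcases i with i | i
    · have h2 : pderiv (Sum.inr j) (X (Sum.inl i) : MvPolynomial (σ ⊕ ι) R) = 0 :=
        pderiv_X_of_ne (by simp)
      simp only [Sum.elim_inl, pderiv_rename_inl, h2, mul_zero, map_zero]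
    · simp only [Sum.elim_inr, map_add, pderiv_rename_inl, zero_add]
      by_cases h : i = j
      · subst h; simp
      · have h1 : pderiv (Sum.inr j) (X (Sum.inr i) : MvPolynomial (ρ ⊕ ι) R) = 0 :=
          pderiv_X_of_ne (by simpa using h)
        have h2 : pderiv (Sum.inr j) (X (Sum.inr i) : MvPolynomial (σ ⊕ ι) R) = 0 :=
          pderiv_X_of_ne (by simpa using h)
        rw [h1, h2]
        simp

theorem degreeOf_rename_inl [Nontrivial R] (j : ι) (p : MvPolynomial ρ R) :
    (rename Sum.inl p : MvPolynomial (ρ ⊕ ι) R).degreeOf (Sum.inr j) = 0 := by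
  classical
  rw [← Nat.le_zero, degreeOf_le_iff]
  intro m hm
  rw [support_rename_of_injective Sum.inl_injective, Finset.mem_image] at hm
  obtain ⟨m', -, rfl⟩ := hm
  rw [Finsupp.mapDomain_of_notMem_range]
  simp

theorem degreeOf_pull_le [Nontrivial R] (τ : σ → MvPolynomial ρ R) (c : ι → MvPolynomial ρ R)
    (F : MvPolynomial (σ ⊕ ι) R) (j : ι) :
    (pull τ c F).degreeOf (Sum.inr j) ≤ F.degreeOf (Sum.inr j) := by
  classical
  unfold pull
  rw [aeval_def, eval₂_eq]
  refine le_trans (degreeOf_sum_le _ _ _) ?_
  refine Finset.sup_le fun m hm => ?_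
  refine le_trans (degreeOf_C_mul_le _ _ _) ?_
  refine le_trans (degreeOf_prod_le _ _ _) ?_
  have hmj : m (Sum.inr j) ≤ F.degreeOf (Sum.inr j) := monomial_le_degreeOf (Sum.inr j) hm
  refine le_trans ?_ hmj
  calc ∑ i ∈ m.support, degreeOf (Sum.inr j)
        ((Sum.elim (fun a => rename Sum.inl (τ a))
          (fun j => rename Sum.inl (c j) + X (Sum.inr j)) i : MvPolynomial (ρ ⊕ ι) R) ^ m i)
      ≤ ∑ i ∈ m.support, (if i = Sum.inr j then m i else 0) := by
        refine Finset.sum_le_sum fun i _ => ?_
        refine le_trans (degreeOf_pow_le _ _ _) ?_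
        rcases i with i | i
        · rw [if_neg (by simp), Sum.elim_inl, degreeOf_rename_inl, mul_zero]
        · rw [Sum.elim_inr]
          by_cases h : i = j
          · subst h
            rw [if_pos rfl]
            have : degreeOf (Sum.inr i)
                (rename Sum.inl (c i) + X (Sum.inr i) : MvPolynomial (ρ ⊕ ι) R) ≤ 1 := by
              refine le_trans (degreeOf_add_le _ _ _) ?_
              rw [degreeOf_rename_inl, degreeOf_X_self]
              simp
            calc m (Sum.inr i) * _ ≤ m (Sum.inr i) * 1 := Nat.mul_le_mul_left _ this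
              _ = m (Sum.inr i) := Nat.mul_one _
          · rw [if_neg (by simpa using h)]
            have : degreeOf (Sum.inr j)
                (rename Sum.inl (c i) + X (Sum.inr i) : MvPolynomial (ρ ⊕ ι) R) ≤ 0 := by
              refine le_trans (degreeOf_add_le _ _ _) ?_
              rw [degreeOf_rename_inl, degreeOf_X_of_ne (by simpa using Ne.symm h)]
              simp
            rw [Nat.le_zero.mp this, Nat.mul_zero]
    _ ≤ m (Sum.inr j) := by
        rw [Finset.sum_ite_eq']
        split_ifs
        · exact le_rfl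
        · exact Nat.zero_le _

theorem pull_map {S : Type*} [CommRing S] (φ : R →+* S) (τ : σ → MvPolynomial ρ R)
    (c : ι → MvPolynomial ρ R) (F : MvPolynomial (σ ⊕ ι) R) :
    map φ (pull τ c F) = pull (fun a => map φ (τ a)) (fun j => map φ (c j)) (map φ F) := by
  unfold pull
  induction F using MvPolynomial.induction_on with
  | C r => simp only [algHom_C, algebraMap_eq, map_C]
  | add p q hp hq => simp only [map_add, hp, hq]
  | mul_X p i hp =>
    rcases i with i | i <;>
    simp only [map_mul, hp, aeval_X, map_X, map_add, map_rename, Sum.elim_inl, Sum.elim_inr]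

/-- If `τ` is algebraically independent over an infinite domain, then `pull τ c` is injective. -/
theorem pull_injective [IsDomain R] [Infinite R] (τ : σ → MvPolynomial ρ R)
    (c : ι → MvPolynomial ρ R) (halg : AlgebraicIndependent R τ) (g : MvPolynomial (σ ⊕ ι) R)
    (hg : pull τ c g = 0) : g = 0 := by
  have h1 : ∀ (s : ρ → R) (x : ι → R), eval (Sum.elim (fun a => eval s (τ a)) x) g = 0 := by
    intro s x
    have := eval_pull τ c g s (fun j => x j - eval s (c j))
    rw [hg] at this
    simp only [map_zero, add_sub_cancel] at this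
    exact this.symm
  have h2 : ∀ x : ι → R, specR x g = 0 := by
    intro x
    have h3 : aeval τ (specR x g) = 0 := by
      apply MvPolynomial.funext
      intro s
      rw [map_zero]
      have h4 : eval s (aeval τ (specR x g)) = eval (fun a => eval s (τ a)) (specR x g) := by
        rw [aeval_def, MvPolynomial.hom_eval₂, MvPolynomial.eval, ← MvPolynomial.coe_eval₂Hom]
        congr 2
        ext r; simp
      rw [h4, eval_specR, h1]
    exact (AlgebraicIndependent.eq_zero_of_aeval_eq_zero halg _ h3)
  apply MvPolynomial.funext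
  intro z
  have h5 := eval_specR (fun i => z (Sum.inl i)) (fun j => z (Sum.inr j)) g
  rw [h2] at h5
  have h3' : (Sum.elim (fun i => z (Sum.inl i)) (fun j => z (Sum.inr j))) = z := by
    funext i; rcases i with i | i <;> rfl
  rw [h3'] at h5
  rw [← h5]; simp

end Pull

end Pool.Agent.Helper37.PD
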