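import Pool.Agent.Helper15.Local

/-!
# Local density, strong form
-/

namespace Pool.Agent.Helper37.PD

open NNReal MvPolynomial Pool.Agent.Helper15

/-- **Local density, strong form.**  If `F` has integral coefficients and degree at most four in
each variable, and `w ^ 2 = F a` with `w ≠ 0` small compared with all partial derivatives of `F`
at `a`, then the set of integral points near `a` where `F` is a small nonzero square is Zariski
dense. -/
theorem dense_local_strong {L ι : Type*} [Field L] [Infinite L] [Finite ι] [DecidableEq ι]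
    (v : Valuation L ℝ≥0) (h3 : v 3 < 1)
    (F : MvPolynomial ι v.integer) (hdeg : ∀ j, F.degreeOf j ≤ 4) (a : ι → v.integer)
    (w : L) (hw0 : w ≠ 0) (hw : w ^ 2 = ((eval a F : v.integer) : L)) (c : ℝ≥0)
    (hc : ∀ j, c ≤ v ((eval a (pderiv j F) : v.integer) : L))
    (hsmall : v w ^ 2 < v 3 * c ^ 8) (G : MvPolynomial ι L)
    (hG : ∀ x : ι → v.integer, (∀ i, v ((x i - a i : v.integer) : L) ≤ v w ^ 2 / c ^ 4) →
      (∃ u : L, u ≠ 0 ∧ u ^ 2 = ((eval x F : v.integer) : L) ∧ v u ≤ v w) →
      eval (fun i => (x i : L)) G = 0) : G = 0 := by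
  classical
  have hevmap : ∀ x : ι → v.integer, eval (fun i => (x i : L)) (map v.integer.subtype F)
      = ((eval x F : v.integer) : L) := by
    intro x
    rw [eval_map, ← Subring.subtype_apply, ← MvPolynomial.eval₂_id, MvPolynomial.hom_eval₂]
    rfl
  have hc0 : 0 < c := by
    rcases eq_or_lt_of_le (zero_le : (0 : ℝ≥0) ≤ c) with h | h
    · rw [← h] at hsmall
      simp at hsmall
    · exact h
  set ρ : ℝ≥0 := v w ^ 2 / c ^ 4 with hρ
  let S : Set (ι → L) := {x | ∃ x' : ι → v.integer, (∀ i, x i = (x' i : L)) ∧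
    (∀ i, v ((x' i - a i : v.integer) : L) ≤ ρ) ∧
    ∃ u : L, u ≠ 0 ∧ u ^ 2 = ((eval x' F : v.integer) : L) ∧ v u ≤ v w}
  have hSne : S.Nonempty := ⟨fun i => (a i : L), a, fun i => rfl, fun i => by simp,
    w, hw0, hw, le_rfl⟩
  refine eq_zero_of_coordwise S hSne ?_ G ?_
  swap
  · rintro x ⟨x', hxx', hxa, u, hu0, hu, huw⟩
    have : x = fun i => (x' i : L) := funext hxx'
    rw [this]
    exact hG x' hxa ⟨u, hu0, hu, huw⟩
  intro x hx j hfin
  have hTfin : {t | Function.update x j t ∈ S}.Finite := hfin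
  -- bound on `ρ`
  obtain ⟨hc1, hρc⟩ : c ≤ 1 ∧ ρ < c := by
    have hc1 : c ≤ 1 := le_trans (hc j) (eval a (pderiv j F)).2
    refine ⟨hc1, ?_⟩
    rw [hρ, div_lt_iff₀ (pow_pos hc0 4)]
    calc v w ^ 2 < v 3 * c ^ 8 := hsmall
      _ ≤ 1 * c ^ 5 := mul_le_mul' h3.le (pow_le_pow_of_le_one zero_le hc1 (by norm_num))
      _ = c * c ^ 4 := by ring
  have hTne : {t | Function.update x j t ∈ S}.Nonempty :=
    ⟨x j, by show Function.update x j (x j) ∈ S; rwa [Function.update_eq_self]⟩
  obtain ⟨t0, ht0, hmin⟩ := Set.exists_min_image _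
    (fun t => v (eval (Function.update x j t) (map v.integer.subtype F))) hTfin hTne
  obtain ⟨y, hxy, hya, u, hu0, hu, huw⟩ := ht0
  have hval0 : v (eval (Function.update x j t0) (map v.integer.subtype F)) = v u ^ 2 := by
    have : Function.update x j t0 = fun i => (y i : L) := funext hxy
    rw [this, hevmap, ← hu, map_pow]
  have hyj : t0 = (y j : L) := by
    have := hxy j
    rwa [Function.update_self] at this
  -- the Taylor expansion at `y` in direction `j`
  obtain ⟨f2, f3, f4, hf⟩ := taylor_four F j (hdeg j) y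
  set f1 : v.integer := eval y (pderiv j F) with hf1
  have hvf1 : c ≤ v (f1 : L) := by
    have h1 : v ((f1 - eval a (pderiv j F) : v.integer) : L) ≤ ρ := lipschitz v _ ρ y a hya
    have h2 : v ((f1 - eval a (pderiv j F) : v.integer) : L)
        < v ((eval a (pderiv j F) : v.integer) : L) :=
      lt_of_le_of_lt h1 (lt_of_lt_of_le hρc (hc j))
    have h3 : (f1 : L) = ((eval a (pderiv j F) : v.integer) : L)
        + ((f1 - eval a (pderiv j F) : v.integer) : L) := by
      push_cast; ring
    rw [h3, Valuation.map_add_eq_of_lt_left v h2]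
    exact hc j
  have hustep : v u ^ 2 < v 3 * v (f1 : L) ^ 8 := by
    calc v u ^ 2 ≤ v w ^ 2 := pow_le_pow_left₀ zero_le huw 2
      _ < v 3 * c ^ 8 := hsmall
      _ ≤ v 3 * v (f1 : L) ^ 8 := mul_le_mul' le_rfl (pow_le_pow_left₀ zero_le hvf1 8)
  obtain ⟨s, Y, hY, hvY, hvs⟩ := parabola_step v (f1 : L) f2 f3 f4 u f1.2 f2.2 f3.2 f4.2 hustep
  have hf1pos : 0 < v (f1 : L) := lt_of_lt_of_le hc0 hvf1
  have hvsρ : v s ≤ ρ := by
    rw [hρ, le_div_iff₀ (pow_pos hc0 4)]
    calc v s * c ^ 4 ≤ v s * v (f1 : L) ^ 4 :=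
          mul_le_mul' le_rfl (pow_le_pow_left₀ zero_le hvf1 4)
      _ ≤ v u ^ 2 := hvs
      _ ≤ v w ^ 2 := pow_le_pow_left₀ zero_le huw 2
  have hs1 : v s ≤ 1 := le_trans hvsρ (le_trans hρc.le hc1)
  obtain ⟨s', hs'⟩ : ∃ s' : v.integer, (s' : L) = s := ⟨⟨s, hs1⟩, rfl⟩
  have hv3ne : v (3 : L) ≠ 0 := by
    intro h
    rw [h] at hsmall
    simp at hsmall
  have hvu : v u ≠ 0 := (Valuation.ne_zero_iff v).mpr hu0
  have hY0 : Y ≠ 0 := by
    rw [← Valuation.ne_zero_iff v, hvY]
    exact mul_ne_zero hv3ne hvu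
  have hYu : v Y < v u := by
    rw [hvY]
    calc v 3 * v u < 1 * v u := by
          exact mul_lt_mul_of_pos_right h3 (pos_iff_ne_zero.mpr hvu)
      _ = v u := one_mul _
  set y1 : ι → v.integer := Function.update y j (y j + s') with hy1
  have hY1 : Y ^ 2 = ((eval y1 F : v.integer) : L) := by
    rw [hy1, hf s', hY]
    push_cast
    rw [hs', hu]
  have hxy1 : Function.update x j (t0 + s) = fun i => (y1 i : L) := by
    funext i
    by_cases h : i = j
    · subst h
      rw [Function.update_self, hy1, Function.update_self, hyj]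
      push_cast
      rw [hs']
    · rw [Function.update_of_ne h, hy1, Function.update_of_ne h]
      have := hxy i
      rwa [Function.update_of_ne h] at this
  have ht1 : t0 + s ∈ {t | Function.update x j t ∈ S} := by
    show Function.update x j (t0 + s) ∈ S
    refine ⟨y1, fun i => congrFun hxy1 i, ?_, Y, hY0, hY1, le_trans hYu.le huw⟩
    intro i
    by_cases h : i = j
    · subst h
      rw [hy1, Function.update_self]
      have : ((y i + s' - a i : v.integer) : L) = ((y i - a i : v.integer) : L) + s := by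
        push_cast; rw [hs']; ring
      rw [this]
      exact Valuation.map_add_le v (hya i) hvsρ
    · rw [hy1, Function.update_of_ne h]
      exact hya i
  have hle := hmin _ ht1
  rw [hval0, hxy1, hevmap, ← hY1, map_pow] at hle
  exact absurd hle (not_le.mpr (pow_lt_pow_left₀ hYu zero_le (by norm_num)))

end Pool.Agent.Helper37.PD
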